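import Pool.Agent.Helper71.FK.Defs

/-! Basic facts about `C^1` test functions, for the quantitative Faber-Krahn development. -/

open MeasureTheory Metric Set Filter Topology
open scoped ENNReal

namespace Pool.Agent.Helper47.FK

open Pool.Agent.Helper71.FK

variable {N : ℕ}

theorem gradient_eq_symm (u : E N → ℝ) (x : E N) :
    gradient u x = (InnerProductSpace.toDual ℝ (E N)).symm (fderiv ℝ u x) := rfl

theorem cont_gradient {u : E N → ℝ} (h : ContDiff ℝ 1 u) : Continuous (gradient u) :=
  (LinearIsometryEquiv.continuous _).comp (h.continuous_fderiv one_ne_zero)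

theorem gradient_add' {u v : E N → ℝ} {x : E N} (hu : DifferentiableAt ℝ u x)
    (hv : DifferentiableAt ℝ v x) :
    gradient (fun y => u y + v y) x = gradient u x + gradient v x := by
  rw [gradient_eq_symm, fderiv_fun_add hu hv, map_add]; rfl

theorem gradient_sub' {u v : E N → ℝ} {x : E N} (hu : DifferentiableAt ℝ u x)
    (hv : DifferentiableAt ℝ v x) :
    gradient (fun y => u y - v y) x = gradient u x - gradient v x := by
  rw [gradient_eq_symm, fderiv_fun_sub hu hv, map_sub]; rfl

theorem gradient_const_mul' {u : E N → ℝ} {x : E N} (hu : DifferentiableAt ℝ u x) (c : ℝ) :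
    gradient (fun y => c * u y) x = c • gradient u x := by
  rw [gradient_eq_symm, fderiv_const_mul hu c, map_smul]; rfl

theorem gradient_comp' {ψ : ℝ → ℝ} {u : E N → ℝ} {x : E N} (hψ : DifferentiableAt ℝ ψ (u x))
    (hu : DifferentiableAt ℝ u x) :
    gradient (fun y => ψ (u y)) x = deriv ψ (u x) • gradient u x := by
  have h := hψ.hasDerivAt.comp_hasFDerivAt x hu.hasFDerivAt
  have h2 : fderiv ℝ (fun y => ψ (u y)) x = deriv ψ (u x) • fderiv ℝ u x := h.fderiv
  rw [gradient_eq_symm, h2, map_smul]; rfl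

theorem gradient_zero_off {u : E N → ℝ} {x : E N} (hx : x ∉ tsupport u) : gradient u x = 0 := by
  have : u =ᶠ[𝓝 x] fun _ => 0 := by
    have h := notMem_tsupport_iff_eventuallyEq.1 hx
    exact h
  rw [gradient_eq_symm, this.fderiv_eq]
  simp

theorem tsupport_comp_sub {ψ : ℝ → ℝ} (h0 : ψ 0 = 0) (u : E N → ℝ) :
    tsupport (fun x => ψ (u x)) ⊆ tsupport u := by
  apply closure_mono
  intro x hx
  simp only [Function.mem_support] at hx ⊢
  intro h
  exact hx (by rw [h, h0])

section tst

variable {Ω : Set (E N)} {u v : E N → ℝ}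

theorem tst_zero (Ω : Set (E N)) : Tst Ω (fun _ => (0:ℝ)) := by
  have h0 : tsupport (fun _ : E N => (0:ℝ)) = ∅ := by
    rw [tsupport_eq_empty_iff]; rfl
  refine ⟨contDiff_const, ?_, ?_⟩
  · rw [HasCompactSupport, h0]; exact isCompact_empty
  · rw [h0]; exact empty_subset _

theorem _root_.Pool.Agent.Helper71.FK.Tst.qcomp (h : Tst Ω u) {ψ : ℝ → ℝ} (hψ : ContDiff ℝ 1 ψ) (h0 : ψ 0 = 0) :
    Tst Ω (fun x => ψ (u x)) :=
  ⟨hψ.comp h.smooth, h.cpt.of_isClosed_subset (isClosed_tsupport _) (tsupport_comp_sub h0 u),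
    (tsupport_comp_sub h0 u).trans h.supp⟩

theorem _root_.Pool.Agent.Helper71.FK.Tst.qadd (h : Tst Ω u) (h' : Tst Ω v) : Tst Ω (fun x => u x + v x) := by
  refine ⟨h.smooth.add h'.smooth, h.cpt.add h'.cpt, ?_⟩
  refine (tsupport_add u v).trans (union_subset h.supp h'.supp)

theorem _root_.Pool.Agent.Helper71.FK.Tst.qconst_mul (h : Tst Ω u) (c : ℝ) : Tst Ω (fun x => c * u x) :=
  h.qcomp (ψ := fun s => c * s) (contDiff_const.mul contDiff_id) (by simp)

theorem _root_.Pool.Agent.Helper71.FK.Tst.qsub (h : Tst Ω u) (h' : Tst Ω v) : Tst Ω (fun x => u x - v x) := by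
  have := h.qadd (h'.qconst_mul (-1))
  have e : (fun x => u x - v x) = fun x => u x + -1 * v x := by ext x; ring
  rw [e]; exact this

theorem _root_.Pool.Agent.Helper71.FK.Tst.qdiff (h : Tst Ω u) (x : E N) : DifferentiableAt ℝ u x :=
  h.smooth.differentiable one_ne_zero x

theorem _root_.Pool.Agent.Helper71.FK.Tst.qgcont (h : Tst Ω u) : Continuous (gradient u) := cont_gradient h.smooth

theorem _root_.Pool.Agent.Helper71.FK.Tst.qoff (h : Tst Ω u) {x : E N} (hx : x ∉ Ω) : u x = 0 :=
  image_eq_zero_of_notMem_tsupport fun h' => hx (h.supp h')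

theorem _root_.Pool.Agent.Helper71.FK.Tst.qgoff (h : Tst Ω u) {x : E N} (hx : x ∉ Ω) : gradient u x = 0 :=
  gradient_zero_off fun h' => hx (h.supp h')

theorem _root_.Pool.Agent.Helper71.FK.Tst.qint (h : Tst Ω u) : Integrable u :=
  h.smooth.continuous.integrable_of_hasCompactSupport h.cpt

theorem _root_.Pool.Agent.Helper71.FK.Tst.qgcpt (h : Tst Ω u) : HasCompactSupport (gradient u) := by
  apply h.cpt.of_isClosed_subset (isClosed_tsupport _)
  apply closure_minimal _ (isClosed_tsupport _)
  intro x hx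
  by_contra h'
  exact hx (gradient_zero_off h')

theorem _root_.Pool.Agent.Helper71.FK.Tst.qgint (h : Tst Ω u) : Integrable (fun x => ‖gradient u x‖ ^ 2) := by
  apply Continuous.integrable_of_hasCompactSupport (h.qgcont.norm.pow 2)
  have := h.qgcpt.comp_left (g := fun p : E N => ‖p‖ ^ 2) (by simp)
  exact this

theorem _root_.Pool.Agent.Helper71.FK.Tst.qgint1 (h : Tst Ω u) : Integrable (fun x => ‖gradient u x‖) := by
  apply Continuous.integrable_of_hasCompactSupport h.qgcont.norm
  have := h.qgcpt.comp_left (g := fun p : E N => ‖p‖) (by simp)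
  exact this

theorem _root_.Pool.Agent.Helper71.FK.Tst.qgintInner (h : Tst Ω u) {V : E N → E N} (hV : Continuous V) :
    Integrable (fun x => (inner ℝ (gradient u x) (V x) : ℝ)) := by
  apply Continuous.integrable_of_hasCompactSupport (h.qgcont.inner hV)
  apply h.qgcpt.mono'
  intro x hx
  apply subset_closure
  intro h'
  apply hx
  simp only [h', inner_zero_left]

theorem dir_nonneg (u : E N → ℝ) : 0 ≤ dir u := integral_nonneg fun x => by positivity

theorem dir_add_mul (h : Tst Ω u) (h' : Tst Ω v) (t : ℝ) :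
    dir (fun x => u x + t * v x) =
      dir u + 2 * t * (∫ x, (inner ℝ (gradient u x) (gradient v x) : ℝ)) + t ^ 2 * dir v := by
  unfold dir
  have e : (fun x => ‖gradient (fun y => u y + t * v y) x‖ ^ 2) = fun x =>
      ‖gradient u x‖ ^ 2 + (2 * t * (inner ℝ (gradient u x) (gradient v x) : ℝ)
        + t ^ 2 * ‖gradient v x‖ ^ 2) := by
    ext x
    rw [gradient_add' (h.qdiff x) ((h'.qconst_mul t).qdiff x), gradient_const_mul' (h'.qdiff x),
      norm_add_sq_real, norm_smul, real_inner_smul_right, mul_pow, Real.norm_eq_abs, sq_abs]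
    ring
  rw [e, integral_add h.qgint, integral_add, integral_const_mul, integral_const_mul]
  · ring
  · exact (h.qgintInner h'.qgcont).const_mul _
  · exact h'.qgint.const_mul _
  · exact ((h.qgintInner h'.qgcont).const_mul _).add (h'.qgint.const_mul _)

theorem int_add_mul (h : Tst Ω u) (h' : Tst Ω v) (t : ℝ) :
    ∫ x, (u x + t * v x) = (∫ x, u x) + t * ∫ x, v x := by
  rw [integral_add h.qint (h'.qint.const_mul t), integral_const_mul]

theorem J_add_mul (h : Tst Ω u) (h' : Tst Ω v) (t : ℝ) :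
    J (fun x => u x + t * v x) =
      J u + 2 * t * ((∫ x, v x) - ∫ x, (inner ℝ (gradient u x) (gradient v x) : ℝ))
        - t ^ 2 * dir v := by
  unfold J
  rw [dir_add_mul h h', int_add_mul h h']
  ring

theorem dir_const_mul (h : Tst Ω u) (c : ℝ) : dir (fun x => c * u x) = c ^ 2 * dir u := by
  unfold dir
  rw [← integral_const_mul]
  congr 1
  ext x
  rw [gradient_const_mul' (h.qdiff x), norm_smul, mul_pow, Real.norm_eq_abs, sq_abs]

theorem dir_comp_le (h : Tst Ω u) {ψ : ℝ → ℝ} (hψ : ContDiff ℝ 1 ψ) (h0 : ψ 0 = 0) {C : ℝ}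
    (hC : ∀ s, |deriv ψ s| ≤ C) : dir (fun x => ψ (u x)) ≤ C ^ 2 * dir u := by
  unfold dir
  rw [← integral_const_mul]
  apply integral_mono (h.qcomp hψ h0).qgint (h.qgint.const_mul _)
  intro x
  simp only
  rw [gradient_comp' (hψ.differentiable one_ne_zero _) (h.qdiff x), norm_smul, mul_pow]
  apply mul_le_mul_of_nonneg_right _ (by positivity)
  have h1 := hC (u x)
  have h2 := abs_nonneg (deriv ψ (u x))
  rw [Real.norm_eq_abs]
  nlinarith

end tst

section reg

/-- smooth approximation of the absolute value -/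
noncomputable def psi (ε : ℝ) (s : ℝ) : ℝ := Real.sqrt (s ^ 2 + ε ^ 2) - ε

theorem psi_smooth {ε : ℝ} (hε : 0 < ε) : ContDiff ℝ 1 (psi ε) := by
  unfold psi
  apply ContDiff.sub _ contDiff_const
  apply ContDiff.sqrt
  · fun_prop
  · intro x; positivity

theorem psi_zero {ε : ℝ} (hε : 0 < ε) : psi ε 0 = 0 := by
  unfold psi
  rw [zero_pow two_ne_zero, zero_add, Real.sqrt_sq hε.le, sub_self]

theorem psi_nonneg {ε : ℝ} (hε : 0 < ε) (s : ℝ) : 0 ≤ psi ε s := by
  unfold psi
  rw [sub_nonneg]
  apply Real.le_sqrt_of_sq_le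
  nlinarith [sq_nonneg s]

theorem psi_ge {ε : ℝ} (hε : 0 < ε) (s : ℝ) : |s| - ε ≤ psi ε s := by
  unfold psi
  apply sub_le_sub_right
  apply Real.le_sqrt_of_sq_le
  rw [sq_abs]
  nlinarith [sq_nonneg ε]

theorem psi_deriv {ε : ℝ} (hε : 0 < ε) (s : ℝ) : |deriv (psi ε) s| ≤ 1 := by
  have h : HasDerivAt (psi ε) ((2 * s) / (2 * Real.sqrt (s ^ 2 + ε ^ 2))) s := by
    unfold psi
    apply HasDerivAt.sub_const
    apply HasDerivAt.sqrt
    · have h1 : HasDerivAt (fun s : ℝ => s ^ 2 + ε ^ 2) (2 * s) s := by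
        have := (hasDerivAt_pow 2 s).add_const (ε ^ 2)
        simpa using this
      exact h1
    · positivity
  rw [h.deriv, mul_div_mul_left _ _ (two_ne_zero), abs_div, abs_of_nonneg (Real.sqrt_nonneg _)]
  apply div_le_one_of_le₀ _ (Real.sqrt_nonneg _)
  apply Real.le_sqrt_of_sq_le
  rw [sq_abs]
  nlinarith [sq_nonneg ε]

variable {Ω : Set (E N)} {u : E N → ℝ}

theorem reg_int (h : Tst Ω u) {ε : ℝ} (hε : 0 < ε) :
    (∫ x, |u x|) - ε * volume.real (tsupport u) ≤ ∫ x, psi ε (u x) := by
  have h1 : (∫ x, |u x|) - ε * volume.real (tsupport u) =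
      ∫ x, (|u x| - (tsupport u).indicator (fun _ => ε) x) := by
    rw [integral_sub h.qint.abs, integral_indicator_const _ (isClosed_tsupport u).measurableSet,
      smul_eq_mul, mul_comm]
    rw [integrable_indicator_iff (isClosed_tsupport u).measurableSet]
    exact integrableOn_const h.cpt.measure_lt_top.ne
  rw [h1]
  apply integral_mono
  · apply h.qint.abs.sub
    rw [integrable_indicator_iff (isClosed_tsupport u).measurableSet]
    exact integrableOn_const h.cpt.measure_lt_top.ne
  · exact (h.qcomp (psi_smooth hε) (psi_zero hε)).qint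
  · intro x
    simp only
    by_cases hx : x ∈ tsupport u
    · rw [indicator_of_mem hx]
      exact psi_ge hε _
    · rw [indicator_of_notMem hx, image_eq_zero_of_notMem_tsupport hx, psi_zero hε]
      simp

end reg

end Pool.Agent.Helper47.FK
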