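import Pool.Agent.Helper71.FK.Ball
import Pool.Agent.Helper79.FKD.Wirt
import Pool.Agent.Helper47.FK.Tst

/-! Numerical bounds for the first eigenvalue of the unit ball. -/

open MeasureTheory Metric Set Filter Topology
open scoped ENNReal

namespace Pool.Agent.Helper47.FK

open Pool.Agent.Helper71.FK

variable {N : ℕ}

theorem sq_integrable {Ω : Set (E N)} {u : E N → ℝ} (h : Tst Ω u) :
    Integrable (fun x => u x ^ 2) := by
  apply Continuous.integrable_of_hasCompactSupport (h.smooth.continuous.pow 2)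
  have := h.cpt.comp_left (g := fun p : ℝ => p ^ 2) (by simp)
  exact this

theorem grad_coord_int {Ω : Set (E N)} {u : E N → ℝ} (hu : Tst Ω u) (j : Fin N) :
    Integrable fun x => (gradient u x j) ^ 2 := by
  have hc : Continuous fun x => (gradient u x j) ^ 2 := by
    have h2 := hu.qgcont
    fun_prop
  refine hc.integrable_of_hasCompactSupport (hu.qgcpt.mono fun x hx => ?_)
  rw [Function.mem_support] at hx ⊢
  intro h
  apply hx
  simp [h]

theorem line_integral {f : ℝ → ℝ} (h : ∀ s, s ∉ Ioo (-1 : ℝ) 1 → f s = 0) :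
    ∫ s, f s = ∫ s in (-1 : ℝ)..1, f s := by
  rw [intervalIntegral.integral_of_le (by norm_num), setIntegral_eq_integral_of_forall_compl_eq_zero]
  intro s hs
  exact h s fun h' => hs (Ioo_subset_Ioc_self h')

theorem coord_lower {n : ℕ} {u : E (n + 1) → ℝ} (hu : Tst (ball (0 : E (n + 1)) 1) u)
    (i : Fin (n + 1)) :
    Real.pi ^ 2 / 4 * (∫ x, u x ^ 2) ≤ ∫ x, (gradient u x i) ^ 2 := by
  have hi1 := sq_integrable hu
  have hi2 := grad_coord_int hu i
  rw [integral_ins' i hi1, integral_ins' i hi2, ← integral_const_mul]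
  have j1 : Integrable fun y => ∫ s, u (ins i s y) ^ 2 :=
    ((integrable_ins_iff i).2 hi1).integral_prod_right
  have j2 : Integrable fun y => ∫ s, (gradient u (ins i s y) i) ^ 2 :=
    ((integrable_ins_iff i).2 hi2).integral_prod_right
  apply integral_mono (j1.const_mul _) j2
  intro y
  simp only
  have hout : ∀ s : ℝ, s ∉ Ioo (-1 : ℝ) 1 → ins i s y ∉ ball (0 : E (n + 1)) 1 := by
    intro s hs hb
    apply hs
    rw [mem_ball_zero_iff] at hb
    have h1 := norm_ins_sq i s y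
    have h2 : ‖ins i s y‖ ^ 2 < 1 := by
      have := norm_nonneg (ins i s y)
      nlinarith
    have h3 : s ^ 2 < 1 := by nlinarith [sq_nonneg ‖y‖]
    constructor <;> nlinarith
  have hv : ContDiff ℝ 1 (fun s : ℝ => u (ins i s y)) := hu.smooth.comp (contDiff_line i y)
  have hz : ∀ s : ℝ, s ∉ Ioo (-1 : ℝ) 1 → u (ins i s y) = 0 := fun s hs =>
    hu.zero_of_notMem (hout s hs)
  have hd : ∀ s, deriv (fun s : ℝ => u (ins i s y)) s = gradient u (ins i s y) i := fun s =>
    (hasDerivAt_line i (hu.differentiable (ins i s y))).deriv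
  have hw := Pool.Agent.Helper79.FKD.wirtinger hv (a := -1) (b := 1) (by norm_num)
    (hz _ (by simp)) (hz _ (by simp))
  rw [line_integral (f := fun s => u (ins i s y) ^ 2) (fun s hs => by
    simp only [hz s hs]; norm_num), line_integral (f := fun s => (gradient u (ins i s y) i) ^ 2)
    (fun s hs => by
      simp only [hu.grad_zero_of_notMem (hout s hs)]; simp)]
  simp_rw [hd] at hw
  have e : (Real.pi / (1 - -1)) ^ 2 = Real.pi ^ 2 / 4 := by ring
  rw [e] at hw
  exact hw

theorem integral_norm_four_ball (N : ℕ) {R : ℝ} (hR : 0 ≤ R) :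
    ∫ x in ball (0 : E N) R, ‖x‖ ^ 4 = N * om N * R ^ (N + 4) / (N + 4) := by
  rcases Nat.eq_zero_or_pos N with rfl | hN
  · have h0 : ∀ x : E 0, ‖x‖ ^ 4 = 0 := fun x => by
      rw [Subsingleton.elim x 0]; simp
    simp only [h0, integral_zero]
    simp
  have := nontriv hN
  have h1 : ∫ x in ball (0 : E N) R, ‖x‖ ^ 4 =
      ∫ x : E N, (Iio R).indicator (fun t => t ^ 4) ‖x‖ := by
    rw [← integral_indicator measurableSet_ball]
    congr 1
    funext x
    simp only [indicator, mem_ball_zero_iff, mem_Iio]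
  rw [h1, integral_fun_norm_addHaar volume, finrank_euclideanSpace, Fintype.card_fin]
  have h2 : ∫ y in Ioi (0:ℝ), y ^ (N - 1) • (Iio R).indicator (fun t => t ^ 4) y =
      R ^ (N + 4) / (N + 4) := by
    have h3 : ∀ y : ℝ, y ^ (N - 1) • (Iio R).indicator (fun t => t ^ 4) y =
        (Iio R).indicator (fun t => t ^ (N + 3)) y := by
      intro y
      by_cases hy : y < R
      · simp only [indicator, mem_Iio, hy, if_true, smul_eq_mul, ← pow_add]
        congr 1
        omega
      · simp [indicator, hy]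
    simp_rw [h3]
    rw [setIntegral_indicator measurableSet_Iio, Ioi_inter_Iio,
      ← integral_Ioc_eq_integral_Ioo, ← intervalIntegral.integral_of_le hR, integral_pow]
    push_cast
    rw [zero_pow (by omega)]
    ring
  rw [h2, ← om.eq_1, nsmul_eq_mul, smul_eq_mul]
  ring

/-- cut-off profile -/
noncomputable def prof (δ t : ℝ) : ℝ := Real.sqrt ((max (t - δ) 0) ^ 2 + δ ^ 2) - δ

theorem hasDerivAt_maxsq (x : ℝ) : HasDerivAt (fun x : ℝ => (max x 0) ^ 2) (2 * max x 0) x := by
  rcases lt_trichotomy x 0 with h | h | h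
  · have h1 : (fun x : ℝ => (max x 0) ^ 2) =ᶠ[𝓝 x] fun _ => 0 := by
      filter_upwards [eventually_lt_nhds h] with y hy
      rw [max_eq_right hy.le]; norm_num
    rw [max_eq_right h.le, mul_zero]
    exact (hasDerivAt_const x (0:ℝ)).congr_of_eventuallyEq h1
  · subst h
    rw [max_self, mul_zero]
    rw [hasDerivAt_iff_isLittleO_nhds_zero]
    simp only [zero_add, max_self, smul_zero, sub_zero]
    apply Asymptotics.IsLittleO.of_bound
    intro c hc
    filter_upwards [eventually_abs_sub_lt 0 hc] with y hy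
    rw [sub_zero] at hy
    have h2 : |max y 0| ≤ |y| := by
      rcases le_total y 0 with h3 | h3
      · rw [max_eq_right h3]; simp
      · rw [max_eq_left h3]
    have h4 : ‖(max y 0) ^ 2 - 0 ^ 2‖ = |max y 0| ^ 2 := by
      rw [Real.norm_eq_abs]; simp
    rw [h4, Real.norm_eq_abs]
    nlinarith [abs_nonneg y, abs_nonneg (max y 0)]
  · have h1 : (fun x : ℝ => (max x 0) ^ 2) =ᶠ[𝓝 x] fun y => y ^ 2 := by
      filter_upwards [eventually_gt_nhds h] with y hy
      rw [max_eq_left hy.le]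
    rw [max_eq_left h.le]
    have h2 : HasDerivAt (fun y : ℝ => y ^ 2) (2 * x) x := by simpa using hasDerivAt_pow 2 x
    exact h2.congr_of_eventuallyEq h1

theorem contDiff_maxsq : ContDiff ℝ 1 (fun x : ℝ => (max x 0) ^ 2) := by
  rw [contDiff_one_iff_deriv]
  refine ⟨fun x => (hasDerivAt_maxsq x).differentiableAt, ?_⟩
  have : deriv (fun x : ℝ => (max x 0) ^ 2) = fun x => 2 * max x 0 := by
    ext x; exact (hasDerivAt_maxsq x).deriv
  rw [this]
  fun_prop

theorem prof_smooth {δ : ℝ} (hδ : 0 < δ) : ContDiff ℝ 1 (prof δ) := by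
  unfold prof
  apply ContDiff.sub _ contDiff_const
  apply ContDiff.sqrt
  · exact (contDiff_maxsq.comp (contDiff_id.sub contDiff_const)).add contDiff_const
  · intro x; positivity

theorem prof_zero {δ : ℝ} (hδ : 0 < δ) {t : ℝ} (ht : t ≤ δ) : prof δ t = 0 := by
  unfold prof
  rw [max_eq_right (by linarith), zero_pow two_ne_zero, zero_add, Real.sqrt_sq hδ.le, sub_self]

theorem prof_nonneg {δ : ℝ} (hδ : 0 < δ) (t : ℝ) : 0 ≤ prof δ t := by
  unfold prof
  rw [sub_nonneg]
  apply Real.le_sqrt_of_sq_le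
  nlinarith [sq_nonneg (max (t - δ) 0)]

theorem prof_ge {δ : ℝ} (hδ : 0 < δ) (t : ℝ) : t - 2 * δ ≤ prof δ t := by
  unfold prof
  have h1 : t - δ ≤ Real.sqrt ((max (t - δ) 0) ^ 2 + δ ^ 2) := by
    refine (le_max_left (t - δ) 0).trans ?_
    apply Real.le_sqrt_of_sq_le
    nlinarith [sq_nonneg δ]
  linarith

theorem prof_deriv {δ : ℝ} (hδ : 0 < δ) (t : ℝ) : |deriv (prof δ) t| ≤ 1 := by
  have h : HasDerivAt (prof δ) ((2 * max (t - δ) 0) /
      (2 * Real.sqrt ((max (t - δ) 0) ^ 2 + δ ^ 2))) t := by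
    unfold prof
    apply HasDerivAt.sub_const
    apply HasDerivAt.sqrt
    · have h1 : HasDerivAt (fun t : ℝ => (max (t - δ) 0) ^ 2) (2 * max (t - δ) 0) t := by
        have h0 : HasDerivAt (fun t : ℝ => t - δ) 1 t := (hasDerivAt_id t).sub_const δ
        have := (hasDerivAt_maxsq (t - δ)).comp t h0
        rw [mul_one] at this
        exact this
      exact h1.add_const _
    · positivity
  rw [h.deriv, mul_div_mul_left _ _ (two_ne_zero), abs_div, abs_of_nonneg (Real.sqrt_nonneg _)]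
  apply div_le_one_of_le₀ _ (Real.sqrt_nonneg _)
  apply Real.le_sqrt_of_sq_le
  rw [sq_abs]
  nlinarith [sq_nonneg δ]

/-- the test function -/
noncomputable def tf (N : ℕ) (δ : ℝ) (x : E N) : ℝ := prof δ (1 - ‖x‖ ^ 2)

theorem tf_tst {δ : ℝ} (hδ : 0 < δ) : Tst (ball (0 : E N) 1) (tf N δ) := by
  have hsub : tsupport (tf N δ) ⊆ {x : E N | ‖x‖ ^ 2 ≤ 1 - δ} := by
    apply closure_minimal _ (isClosed_le (by fun_prop) continuous_const)
    intro x hx
    simp only [Function.mem_support] at hx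
    simp only [mem_ofPred_eq]
    by_contra hcon
    push Not at hcon
    apply hx
    unfold tf
    exact prof_zero hδ (by linarith)
  have hsub2 : {x : E N | ‖x‖ ^ 2 ≤ 1 - δ} ⊆ ball (0 : E N) 1 := by
    intro x hx
    simp only [mem_ofPred_eq] at hx
    rw [mem_ball_zero_iff]
    have := norm_nonneg x
    nlinarith
  refine ⟨?_, ?_, hsub.trans hsub2⟩
  · unfold tf
    apply (prof_smooth hδ).comp
    exact contDiff_const.sub (contDiff_norm_sq ℝ)
  · apply (isCompact_closedBall (0 : E N) 1).of_isClosed_subset (isClosed_tsupport _)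
    exact (hsub.trans hsub2).trans ball_subset_closedBall

theorem tf_grad {δ : ℝ} (hδ : 0 < δ) (x : E N) : ‖gradient (tf N δ) x‖ ^ 2 ≤ 4 * ‖x‖ ^ 2 := by
  have h1 : HasFDerivAt (fun x : E N => 1 - ‖x‖ ^ 2) (-(2 • (innerSL ℝ x))) x := by
    have h0 : HasFDerivAt (fun x : E N => ‖x‖ ^ 2) (2 • (innerSL ℝ x)) x :=
      (hasStrictFDerivAt_norm_sq x).hasFDerivAt
    exact h0.const_sub 1
  have h2 : HasFDerivAt (tf N δ) (deriv (prof δ) (1 - ‖x‖ ^ 2) •
      (-((2 : ℕ) • (innerSL ℝ x : E N →L[ℝ] ℝ)))) x :=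
    (((prof_smooth hδ).differentiable one_ne_zero _).hasDerivAt).comp_hasFDerivAt x h1
  rw [norm_grad, h2.fderiv, norm_smul, norm_neg]
  have h3 : ‖((2 : ℕ) • (innerSL ℝ x : E N →L[ℝ] ℝ))‖ ≤ 2 * ‖x‖ := by
    rw [two_smul]
    refine (norm_add_le _ _).trans ?_
    rw [innerSL_apply_norm]
    linarith
  have h4 := prof_deriv hδ (1 - ‖x‖ ^ 2)
  have h5 : ‖deriv (prof δ) (1 - ‖x‖ ^ 2)‖ * ‖((2 : ℕ) • (innerSL ℝ x : E N →L[ℝ] ℝ))‖ ≤
      2 * ‖x‖ := by
    rw [Real.norm_eq_abs]
    calc _ ≤ 1 * (2 * ‖x‖) := mul_le_mul h4 h3 (norm_nonneg _) zero_le_one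
      _ = _ := one_mul _
  calc _ ≤ (2 * ‖x‖) ^ 2 := pow_le_pow_left₀ (by positivity) h5 2
    _ = _ := by ring

end Pool.Agent.Helper47.FK

namespace Pool.Agent.Helper71.FKFinal

open Pool.Agent.Helper71.FK (Tst dir E om)
open Pool.Agent.Helper47.FK

/-- `N π²/4 ≤ λ₁(B_1)` in test function form -/
theorem ball_lower {N : ℕ} {u : E N → ℝ} (hu : Tst (ball (0 : E N) 1) u) :
    N * Real.pi ^ 2 / 4 * (∫ x, u x ^ 2) ≤ dir u := by
  rcases N with _ | n
  · simp only [Nat.cast_zero, zero_mul, zero_div]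
    exact Pool.Agent.Helper47.FK.dir_nonneg u
  have h1 : dir u = ∑ i : Fin (n + 1), ∫ x, (gradient u x i) ^ 2 := by
    unfold dir
    rw [← integral_finsetSum _ (fun i _ => grad_coord_int hu i)]
    congr 1
    funext x
    rw [EuclideanSpace.norm_sq_eq]
    simp
  rw [h1]
  calc ((n + 1 : ℕ) : ℝ) * Real.pi ^ 2 / 4 * (∫ x, u x ^ 2)
      = ∑ _i : Fin (n + 1), Real.pi ^ 2 / 4 * (∫ x, u x ^ 2) := by
        rw [Finset.sum_const, Finset.card_univ, Fintype.card_fin, nsmul_eq_mul]; ring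
    _ ≤ _ := Finset.sum_le_sum fun i _ => coord_lower hu i

/-- `λ₁(B_1) ≤ N (N + 4) / 2` : test functions close to `1 - |x|^2` -/
theorem ball_upper {N : ℕ} (hN : 1 ≤ N) {ε : ℝ} (hε : 0 < ε) :
    ∃ u, Tst (ball (0 : E N) 1) u ∧ 0 < (∫ x, u x ^ 2) ∧
      dir u ≤ (N * (N + 4) / 2 + ε) * (∫ x, u x ^ 2) := by
  have hom := Pool.Agent.Helper71.FK.om_pos N
  have hN0 : (0:ℝ) < N := by exact_mod_cast hN
  set A : ℝ := N * (N + 4) / 2 + ε with hA
  have hA0 : 0 < A := by positivity
  set δ : ℝ := 2 * ε / ((N + 2) * (N + 4) * A) with hδdef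
  have hδ : 0 < δ := by positivity
  have ht := tf_tst (N := N) hδ
  have hb : volume.real (ball (0 : E N) 1) = om N := rfl
  have hi2 : IntegrableOn (fun x : E N => ‖x‖ ^ 2) (ball (0 : E N) 1) :=
    (((continuous_norm.pow 2).continuousOn.integrableOn_compact
      (isCompact_closedBall (0 : E N) 1)).mono_set ball_subset_closedBall)
  have hi4 : IntegrableOn (fun x : E N => ‖x‖ ^ 4) (ball (0 : E N) 1) :=
    (((continuous_norm.pow 4).continuousOn.integrableOn_compact
      (isCompact_closedBall (0 : E N) 1)).mono_set ball_subset_closedBall)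
  have hi0 : ∀ c : ℝ, IntegrableOn (fun _ : E N => c) (ball (0 : E N) 1) := fun c =>
    integrableOn_const measure_ball_lt_top.ne
  -- upper bound for the Dirichlet integral
  have hdir : dir (tf N δ) ≤ 4 * (N * om N / (N + 2)) := by
    have h1 : dir (tf N δ) = ∫ x in ball (0 : E N) 1, ‖gradient (tf N δ) x‖ ^ 2 := by
      unfold dir
      rw [setIntegral_eq_integral_of_forall_compl_eq_zero]
      intro x hx
      rw [ht.qgoff hx]; simp
    have h2 : ∫ x in ball (0 : E N) 1, 4 * ‖x‖ ^ 2 = 4 * (N * om N / (N + 2)) := by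
      rw [integral_const_mul, Pool.Agent.Helper71.FK.integral_norm_sq_ball N zero_le_one]
      simp
    rw [h1, ← h2]
    apply integral_mono ht.qgint.integrableOn (hi2.const_mul 4)
    intro x
    exact tf_grad hδ x
  -- lower bound for the L2 norm
  have hL2 : om N * (8 / ((N + 2) * (N + 4)) - 4 * δ) ≤ ∫ x, tf N δ x ^ 2 := by
    have h1 : ∫ x, tf N δ x ^ 2 = ∫ x in ball (0 : E N) 1, tf N δ x ^ 2 := by
      rw [setIntegral_eq_integral_of_forall_compl_eq_zero]
      intro x hx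
      rw [ht.qoff hx]; simp
    have h3 : ∫ x in ball (0 : E N) 1, ((1 - 4 * δ) - 2 * ‖x‖ ^ 2) =
        (1 - 4 * δ) * om N - 2 * (N * om N / (N + 2)) := by
      have h4 := integral_sub (hi0 (1 - 4 * δ)) (hi2.const_mul 2)
      rw [h4, integral_const_mul, Pool.Agent.Helper71.FK.integral_norm_sq_ball N zero_le_one,
        setIntegral_const, hb]
      simp only [one_pow, smul_eq_mul]
      ring
    have h2 : ∫ x in ball (0 : E N) 1, ((1 - 4 * δ) - 2 * ‖x‖ ^ 2 + ‖x‖ ^ 4) =
        om N * (8 / ((N + 2) * (N + 4)) - 4 * δ) := by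
      have h4 := integral_add ((hi0 (1 - 4 * δ)).sub (hi2.const_mul 2)) hi4
      simp only [Pi.sub_apply] at h4
      rw [h4, h3, integral_norm_four_ball N zero_le_one]
      simp only [one_pow]
      field_simp
      ring
    rw [h1, ← h2]
    apply setIntegral_mono_on
    · exact ((hi0 _).sub (hi2.const_mul 2)).add hi4
    · exact (sq_integrable ht).integrableOn
    · exact measurableSet_ball
    intro x hx
    rw [mem_ball_zero_iff] at hx
    have hx2 : ‖x‖ ^ 2 ≤ 1 := by
      have := norm_nonneg x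
      nlinarith
    set a := 1 - ‖x‖ ^ 2 with ha
    have ha0 : 0 ≤ a := by linarith
    have e : (1 - 4 * δ) - 2 * ‖x‖ ^ 2 + ‖x‖ ^ 4 = a ^ 2 - 4 * δ := by rw [ha]; ring
    rw [e]
    have hp1 := prof_ge hδ a
    have hp0 := prof_nonneg hδ a
    have ha1 : a ≤ 1 := by
      have := sq_nonneg ‖x‖
      linarith
    have hgoal : a ^ 2 - 4 * δ ≤ prof δ a ^ 2 := by
      by_cases h : 2 * δ ≤ a
      · have : (a - 2 * δ) ^ 2 ≤ prof δ a ^ 2 := pow_le_pow_left₀ (by linarith) hp1 2
        nlinarith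
      · push Not at h
        nlinarith [sq_nonneg (prof δ a)]
    exact hgoal
  have hkey : 4 * (N * om N / (N + 2)) ≤ A * (om N * (8 / ((N + 2) * (N + 4)) - 4 * δ)) := by
    have e1 : A * δ = 2 * ε / ((N + 2) * (N + 4)) := by
      rw [hδdef]; field_simp
    have e2 : A * (om N * (8 / ((N + 2) * (N + 4)) - 4 * δ)) =
        om N * (8 * A / ((N + 2) * (N + 4)) - 4 * (A * δ)) := by ring
    rw [e2, e1, hA]
    apply le_of_eq
    field_simp
    ring
  have hpos : 0 < 4 * (N * om N / (N + 2)) := by positivity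
  have hmain : 4 * (N * om N / (N + 2)) ≤ A * ∫ x, tf N δ x ^ 2 :=
    hkey.trans (mul_le_mul_of_nonneg_left hL2 hA0.le)
  refine ⟨tf N δ, ht, ?_, hdir.trans hmain⟩
  by_contra hcon
  push Not at hcon
  have : A * ∫ x, tf N δ x ^ 2 ≤ 0 := mul_nonpos_of_nonneg_of_nonpos hA0.le hcon
  linarith

end Pool.Agent.Helper71.FKFinal
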