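import Pool.Agent.Helper47.FK.Tst

/-! Existence of the torsion pair. -/

open MeasureTheory Metric Set Filter Topology
open scoped ENNReal

namespace Pool.Agent.Helper47.FK

open Pool.Agent.Helper71.FK

variable {N : ℕ} {Ω : Set (E N)} {u v : E N → ℝ}

theorem J_le_of_nonneg {S : ℝ} (hS : ∀ φ, Tst Ω φ → (∀ x, 0 ≤ φ x) → J φ ≤ S) (h : Tst Ω u) :
    J u ≤ S := by
  set V := volume.real (tsupport u) with hV
  have hV0 : 0 ≤ V := measureReal_nonneg
  apply le_of_forall_pos_le_add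
  intro η hη
  set ε := η / (2 * (V + 1)) with hε'
  have hε : 0 < ε := by positivity
  have h1 := hS _ (h.qcomp (psi_smooth hε) (psi_zero hε)) (fun x => psi_nonneg hε _)
  have h2 := reg_int h hε
  have h3 := dir_comp_le h (psi_smooth hε) (psi_zero hε) (psi_deriv hε)
  have h4 : ∫ x, u x ≤ ∫ x, |u x| := by
    apply integral_mono h.qint h.qint.abs
    intro x; exact le_abs_self _
  have h5 : ε * V ≤ η / 2 := by
    rw [hε', div_mul_eq_mul_div, div_le_div_iff₀ (by positivity) (by positivity)]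
    nlinarith
  unfold J at h1 ⊢
  linarith

theorem quad_bound {a d T : ℝ} (ha : 0 ≤ a) (hd : 0 ≤ d) (hT : 0 ≤ T)
    (h : ∀ t : ℝ, 0 ≤ t → 2 * t * a - t ^ 2 * d ≤ T) : a ^ 2 ≤ T * d := by
  have h1 : ∀ t : ℝ, 0 ≤ d * (t * t) + (-2 * a) * t + T := by
    intro t
    rcases le_total 0 t with ht | ht
    · have := h t ht
      nlinarith
    · have h2 : 0 ≤ d * (t * t) := mul_nonneg hd (mul_self_nonneg t)
      have h3 : 0 ≤ (-2 * a) * t := by
        have : 0 ≤ a * (-t) := mul_nonneg ha (neg_nonneg.2 ht)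
        linarith
      linarith
  have h2 := discrim_le_zero h1
  unfold discrim at h2
  nlinarith

theorem sq_int_le {S : ℝ} (hS0 : 0 ≤ S) (hS : ∀ φ, Tst Ω φ → (∀ x, 0 ≤ φ x) → J φ ≤ S)
    (h : Tst Ω u) : (∫ x, |u x|) ^ 2 ≤ S * dir u := by
  have key : ∀ f, Tst Ω f → (∀ x, 0 ≤ f x) → (∫ x, f x) ^ 2 ≤ S * dir f := by
    intro f hf hf0
    apply quad_bound (integral_nonneg hf0) (dir_nonneg f) hS0
    intro t ht
    have h1 := hS _ (hf.qconst_mul t) (fun x => mul_nonneg ht (hf0 x))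
    unfold J at h1
    rw [dir_const_mul hf, integral_const_mul] at h1
    linarith
  have h0 : 0 ≤ S * dir u := mul_nonneg hS0 (dir_nonneg u)
  have h1 : ∫ x, |u x| ≤ Real.sqrt (S * dir u) := by
    set V := volume.real (tsupport u) with hV
    have hV0 : 0 ≤ V := measureReal_nonneg
    apply le_of_forall_pos_le_add
    intro η hη
    set ε := η / (V + 1) with hε'
    have hε : 0 < ε := by positivity
    have h1 := key _ (h.qcomp (psi_smooth hε) (psi_zero hε)) (fun x => psi_nonneg hε _)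
    have h2 := reg_int h hε
    have h3 := dir_comp_le h (psi_smooth hε) (psi_zero hε) (psi_deriv hε)
    have h5 : ε * V ≤ η := by
      rw [hε', div_mul_eq_mul_div, div_le_iff₀ (by positivity)]
      nlinarith
    have h6 : ∫ x, psi ε (u x) ≤ Real.sqrt (S * dir u) := by
      apply Real.le_sqrt_of_sq_le
      refine h1.trans ?_
      apply mul_le_mul_of_nonneg_left _ hS0
      linarith
    linarith
  have h2 : 0 ≤ ∫ x, |u x| := integral_nonneg fun x => abs_nonneg _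
  calc (∫ x, |u x|) ^ 2 ≤ (Real.sqrt (S * dir u)) ^ 2 := pow_le_pow_left₀ h2 h1 2
    _ = S * dir u := Real.sq_sqrt h0

theorem parallelogram {S : ℝ} (hS : ∀ φ, Tst Ω φ → J φ ≤ S) (h : Tst Ω u) (h' : Tst Ω v) :
    dir (fun x => u x - v x) ≤ 2 * (S - J u) + 2 * (S - J v) := by
  have h1 := hS _ ((h.qadd h').qconst_mul (1/2))
  have e1 : J (fun x => 1 / 2 * (u x + v x)) =
      (J u + J v) / 2 + dir (fun x => u x - v x) / 4 := by
    have a1 := dir_add_mul h h' (-1)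
    have a2 := dir_add_mul h h' 1
    have a3 := int_add_mul h h' 1
    have a4 := dir_const_mul (h.qadd h') (1/2)
    have b1 : (fun x => u x - v x) = fun x => u x + -1 * v x := by ext x; ring
    have b2 : (fun x => u x + v x) = fun x => u x + 1 * v x := by ext x; ring
    have b3 : (∫ x, (u x + v x)) = (∫ x, u x) + ∫ x, v x := by
      rw [b2, a3]; ring
    unfold J
    rw [a4, integral_const_mul, b3, b1, a1, b2, a2]
    ring
  rw [e1] at h1
  linarith

theorem dir_sub_comm (u v : E N → ℝ) : dir (fun x => u x - v x) = dir (fun x => v x - u x) := by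
  unfold dir
  congr 1
  ext x
  have : (fun x => u x - v x) = fun x => -(v x - u x) := by ext x; ring
  rw [this]
  have h2 : gradient (fun x => -(v x - u x)) x = - gradient (fun x => v x - u x) x := by
    rw [gradient_eq_symm, gradient_eq_symm, ← map_neg]
    congr 1
    exact fderiv_fun_neg
  rw [h2, norm_neg]

theorem om_pos (N : ℕ) : 0 < om N := by
  unfold om
  apply ENNReal.toReal_pos
  · exact (measure_ball_pos _ _ one_pos).ne'
  · exact measure_ball_lt_top.ne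

theorem exists_radius (hN : 1 ≤ N) {Ω : Set (E N)} (hf : volume Ω ≠ ⊤) :
    ∃ R : ℝ, 0 ≤ R ∧ volume Ω ≤ ENNReal.ofReal (om N * R ^ N) := by
  have ho := om_pos N
  refine ⟨max 1 ((volume Ω).toReal / om N), by positivity, ?_⟩
  rw [ENNReal.le_ofReal_iff_toReal_le hf (by positivity)]
  set R := max 1 ((volume Ω).toReal / om N) with hR
  have h1 : 1 ≤ R := le_max_left _ _
  have h2 : (volume Ω).toReal / om N ≤ R := le_max_right _ _
  have h3 : R ≤ R ^ N := le_self_pow₀ h1 (by omega)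
  rw [div_le_iff₀ ho] at h2
  nlinarith

theorem max_seq (hN : 1 ≤ N) (hSV : SV N) (ho : IsOpen Ω) (hf : volume Ω ≠ ⊤) :
    ∃ (S : ℝ) (u : ℕ → E N → ℝ), 0 ≤ S ∧ (∀ φ, Tst Ω φ → J φ ≤ S) ∧ (∀ k, Tst Ω (u k)) ∧
      (∀ k x, 0 ≤ u k x) ∧ (∀ k, S - (1 / 4) ^ k ≤ J (u k)) := by
  obtain ⟨R, hR0, hR⟩ := exists_radius hN hf
  set A : Set ℝ := {s | ∃ φ, Tst Ω φ ∧ (∀ x, 0 ≤ φ x) ∧ J φ = s} with hA
  have hne : A.Nonempty := ⟨_, fun _ => 0, tst_zero Ω, fun _ => le_rfl, rfl⟩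
  have hbd : BddAbove A := by
    refine ⟨TB N R, ?_⟩
    rintro s ⟨φ, h1, h2, rfl⟩
    exact hSV Ω R ho hR0 hR φ h1 h2
  have hS : ∀ φ, Tst Ω φ → (∀ x, 0 ≤ φ x) → J φ ≤ sSup A := fun φ h1 h2 =>
    le_csSup hbd ⟨φ, h1, h2, rfl⟩
  have hex : ∀ k : ℕ, ∃ φ, Tst Ω φ ∧ (∀ x, 0 ≤ φ x) ∧ sSup A - (1 / 4) ^ k ≤ J φ := by
    intro k
    have h1 : sSup A - (1 / 4) ^ k < sSup A := by
      have : (0:ℝ) < (1 / 4) ^ k := by positivity
      linarith
    obtain ⟨s, ⟨φ, h2, h3, rfl⟩, h4⟩ := exists_lt_of_lt_csSup hne h1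
    exact ⟨φ, h2, h3, h4.le⟩
  choose u hu1 hu2 hu3 using hex
  refine ⟨sSup A, u, ?_, fun φ h => J_le_of_nonneg hS h, hu1, hu2, hu3⟩
  have h1 := hS _ (tst_zero Ω) (fun _ => le_rfl)
  have h2 : J (fun _ : E N => (0:ℝ)) = 0 := by
    unfold J dir
    simp
  linarith

/-- abstract `L^1` limit -/
theorem exists_L1_limit {α : Type*} [MeasurableSpace α] {μ : Measure α} {f : ℕ → α → ℝ}
    (hf : ∀ k, Integrable (f k) μ) {C : ℝ}
    (hC : ∀ k, ∫ x, |f k x - f (k + 1) x| ∂μ ≤ C * (1 / 2) ^ k) :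
    ∃ F : α → ℝ, Measurable F ∧ Integrable F μ ∧
      Tendsto (fun k => ∫ x, |f k x - F x| ∂μ) atTop (𝓝 0) := by
  have hdist : ∀ (a b : α → ℝ) (ha : Integrable a μ) (hb : Integrable b μ),
      dist (ha.toL1 a) (hb.toL1 b) = ∫ x, |a x - b x| ∂μ := by
    intro a b ha hb
    rw [dist_eq_norm, ← Integrable.toL1_sub, L1.norm_eq_integral_norm]
    apply integral_congr_ae
    filter_upwards [(ha.sub hb).coeFn_toL1] with x hx
    rw [hx, Real.norm_eq_abs]; rfl
  have hc : CauchySeq (fun k => (hf k).toL1 (f k)) := by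
    apply cauchySeq_of_le_geometric (1/2) C (by norm_num)
    intro n
    rw [hdist]
    exact hC n
  obtain ⟨G, hG⟩ := cauchySeq_tendsto_of_complete hc
  have hGm : Measurable (G : α → ℝ) := (Lp.stronglyMeasurable G).measurable
  have hGi : Integrable (G : α → ℝ) μ := L1.integrable_coeFn G
  refine ⟨G, hGm, hGi, ?_⟩
  have h1 : ∀ k, ∫ x, |f k x - G x| ∂μ = dist ((hf k).toL1 (f k)) G := by
    intro k
    rw [← hdist _ _ (hf k) hGi, Integrable.toL1_coeFn]
  simp_rw [h1]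
  rwa [← tendsto_iff_dist_tendsto_zero]

/-- abstract `L^2` limit -/
theorem exists_L2_limit {α F : Type*} [MeasurableSpace α] {μ : Measure α}
    [NormedAddCommGroup F] [InnerProductSpace ℝ F] [CompleteSpace F] [MeasurableSpace F]
    [BorelSpace F] {f : ℕ → α → F}
    (hf : ∀ k, MemLp (f k) 2 μ) {C : ℝ}
    (hC : ∀ k, ∫ x, ‖f k x - f (k + 1) x‖ ^ 2 ∂μ ≤ (C * (1 / 2) ^ k) ^ 2) (hC0 : 0 ≤ C) :
    ∃ G : α → F, Measurable G ∧ MemLp G 2 μ ∧
      Tendsto (fun k => ∫ x, ‖f k x - G x‖ ^ 2 ∂μ) atTop (𝓝 0) := by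
  have hdist : ∀ (a b : α → F) (ha : MemLp a 2 μ) (hb : MemLp b 2 μ),
      dist (ha.toLp a) (hb.toLp b) ^ 2 = ∫ x, ‖a x - b x‖ ^ 2 ∂μ := by
    intro a b ha hb
    rw [dist_eq_norm, ← MemLp.toLp_sub, ← real_inner_self_eq_norm_sq, L2.inner_def]
    apply integral_congr_ae
    filter_upwards [(ha.sub hb).coeFn_toLp] with x hx
    rw [hx, real_inner_self_eq_norm_sq]; rfl
  have hc : CauchySeq (fun k => (hf k).toLp (f k)) := by
    apply cauchySeq_of_le_geometric (1/2) C (by norm_num)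
    intro n
    apply le_of_sq_le_sq _ (by positivity)
    rw [hdist]
    exact hC n
  obtain ⟨G, hG⟩ := cauchySeq_tendsto_of_complete hc
  have hGm : Measurable (G : α → F) := (Lp.stronglyMeasurable G).measurable
  have hGi : MemLp (G : α → F) 2 μ := Lp.memLp G
  refine ⟨G, hGm, hGi, ?_⟩
  have h1 : ∀ k, ∫ x, ‖f k x - G x‖ ^ 2 ∂μ = dist ((hf k).toLp (f k)) G ^ 2 := by
    intro k
    rw [← hdist _ _ (hf k) hGi, Lp.toLp_coeFn]
  simp_rw [h1]
  have h2 := (tendsto_iff_dist_tendsto_zero.1 hG).pow 2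
  simpa using h2

end Pool.Agent.Helper47.FK
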