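import Pool.Agent.Helper47.FK.Exist

/-! Existence of the torsion pair, and passage to the limit. -/

open MeasureTheory Metric Set Filter Topology
open scoped ENNReal

namespace Pool.Agent.Helper47.FK

open Pool.Agent.Helper71.FK

variable {N : ℕ} {Ω : Set (E N)}

theorem exists_pair' (hN : 1 ≤ N) (hSV : SV N) (ho : IsOpen Ω) (hf : volume Ω ≠ ⊤) :
    ∃ u w g, Pair Ω u w g := by
  obtain ⟨S, u, hS0, hS, hu, hu0, huS⟩ := max_seq hN hSV ho hf
  have hS' : ∀ φ, Tst Ω φ → (∀ x, 0 ≤ φ x) → J φ ≤ S := fun φ h _ => hS φ h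
  have hd : ∀ k, dir (fun x => u k x - u (k + 1) x) ≤ 4 * (1 / 4) ^ k := by
    intro k
    have h1 := parallelogram hS (hu k) (hu (k + 1))
    have h2 := huS k
    have h3 := huS (k + 1)
    have h4 : (1 / 4 : ℝ) ^ (k + 1) ≤ (1 / 4) ^ k := by
      apply pow_le_pow_of_le_one (by norm_num) (by norm_num) (by omega)
    linarith
  have hpow : ∀ k : ℕ, (1 / 4 : ℝ) ^ k = ((1 / 2) ^ k) ^ 2 := by
    intro k
    rw [← pow_mul, mul_comm, pow_mul]; norm_num
  -- L1 part
  have hL1 : ∀ k, ∫ x, |u k x - u (k + 1) x| ≤ (2 * Real.sqrt S) * (1 / 2) ^ k := by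
    intro k
    have h1 := sq_int_le hS0 hS' ((hu k).qsub (hu (k + 1)))
    have h2 := hd k
    apply le_of_sq_le_sq _ (by positivity)
    refine h1.trans ?_
    have h3 : (2 * Real.sqrt S * (1 / 2) ^ k) ^ 2 = S * (4 * (1 / 4) ^ k) := by
      rw [hpow, mul_pow, mul_pow, Real.sq_sqrt hS0]; ring
    rw [h3]
    exact mul_le_mul_of_nonneg_left h2 hS0
  obtain ⟨F, hFm, hFi, hFl⟩ := exists_L1_limit (fun k => (hu k).qint) hL1
  -- L2 part
  have hmem : ∀ k, MemLp (gradient (u k)) 2 (volume : Measure (E N)) := by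
    intro k
    exact (hu k).qgcont.memLp_of_hasCompactSupport (hu k).qgcpt
  have hL2 : ∀ k, ∫ x, ‖gradient (u k) x - gradient (u (k + 1)) x‖ ^ 2 ≤
      (2 * (1 / 2) ^ k) ^ 2 := by
    intro k
    have h2 := hd k
    have h3 : dir (fun x => u k x - u (k + 1) x) =
        ∫ x, ‖gradient (u k) x - gradient (u (k + 1)) x‖ ^ 2 := by
      unfold dir
      congr 1
      ext x
      rw [gradient_sub' ((hu k).qdiff x) ((hu (k + 1)).qdiff x)]
    rw [← h3, mul_pow, ← hpow]
    linarith
  obtain ⟨G, hGm, hGi, hGl⟩ := exists_L2_limit hmem hL2 (by norm_num)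
  -- the modified limits
  set w : E N → ℝ := Ω.indicator (fun x => max (F x) 0) with hw
  set g : E N → E N := Ω.indicator G with hg
  have hwm : Measurable w := (hFm.max measurable_const).indicator ho.measurableSet
  have hgm : Measurable g := hGm.indicator ho.measurableSet
  have hwpos : ∀ x, 0 ≤ w x := fun x => indicator_nonneg (fun y _ => le_max_right _ _) x
  have hw0 : ∀ x, x ∉ Ω → w x = 0 := fun x hx => indicator_of_notMem hx _
  have hg0 : ∀ x, x ∉ Ω → g x = 0 := fun x hx => indicator_of_notMem hx _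
  have hwint : Integrable w := (hFi.pos_part).indicator ho.measurableSet
  have hgmem : MemLp g 2 volume := hGi.indicator ho.measurableSet
  have hgint : Integrable (fun x => ‖g x‖ ^ 2) := hgmem.integrable_norm_pow (by norm_num)
  have hcw : ∀ k x, |u k x - w x| ≤ |u k x - F x| := by
    intro k x
    by_cases hx : x ∈ Ω
    · rw [hw, indicator_of_mem hx]
      have h1 := hu0 k x
      rcases le_total (F x) 0 with h2 | h2
      · rw [max_eq_right h2, sub_zero, abs_of_nonneg h1, abs_of_nonneg (by linarith)]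
        linarith
      · rw [max_eq_left h2]
    · rw [hw0 x hx, (hu k).qoff hx]
      simp
  have hcg : ∀ k x, ‖gradient (u k) x - g x‖ ^ 2 ≤ ‖gradient (u k) x - G x‖ ^ 2 := by
    intro k x
    by_cases hx : x ∈ Ω
    · rw [hg, indicator_of_mem hx]
    · rw [hg0 x hx, (hu k).qgoff hx]
      simp
  have hlw : Tendsto (fun k => ∫ x, |u k x - w x|) atTop (𝓝 0) := by
    apply squeeze_zero (fun k => integral_nonneg fun x => abs_nonneg _) _ hFl
    intro k
    apply integral_mono ((hu k).qint.sub hwint).abs ((hu k).qint.sub hFi).abs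
    exact hcw k
  have hlg : Tendsto (fun k => ∫ x, ‖gradient (u k) x - g x‖ ^ 2) atTop (𝓝 0) := by
    apply squeeze_zero (fun k => integral_nonneg fun x => by positivity) _ hGl
    intro k
    apply integral_mono
    · exact ((hmem k).sub hgmem).integrable_norm_pow (by norm_num)
    · exact ((hmem k).sub hGi).integrable_norm_pow (by norm_num)
    · exact hcg k
  -- limit of J
  have hJ : Tendsto (fun k => J (u k)) atTop (𝓝 S) := by
    have h1 : Tendsto (fun k : ℕ => S - (1 / 4 : ℝ) ^ k) atTop (𝓝 (S - 0)) :=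
      tendsto_const_nhds.sub (tendsto_pow_atTop_nhds_zero_of_lt_one (by norm_num) (by norm_num))
    rw [sub_zero] at h1
    exact tendsto_of_tendsto_of_tendsto_of_le_of_le h1 tendsto_const_nhds huS
      (fun k => hS _ (hu k))
  have hi : Tendsto (fun k => ∫ x, u k x) atTop (𝓝 (∫ x, w x)) := by
    rw [tendsto_iff_norm_sub_tendsto_zero]
    apply squeeze_zero (fun k => norm_nonneg _) _ hlw
    intro k
    rw [← integral_sub (hu k).qint hwint]
    exact norm_integral_le_integral_norm _
  have hdl : Tendsto (fun k => dir (u k)) atTop (𝓝 (∫ x, ‖g x‖ ^ 2)) := by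
    have hnorm : ∀ (a : E N → E N) (ha : MemLp a 2 (volume : Measure (E N))),
        ‖ha.toLp a‖ ^ 2 = ∫ x, ‖a x‖ ^ 2 := by
      intro a ha
      rw [← real_inner_self_eq_norm_sq, L2.inner_def]
      apply integral_congr_ae
      filter_upwards [ha.coeFn_toLp] with x hx
      rw [hx, real_inner_self_eq_norm_sq]
    have h1 : Tendsto (fun k => (hmem k).toLp (gradient (u k))) atTop (𝓝 (hgmem.toLp g)) := by
      rw [tendsto_iff_norm_sub_tendsto_zero]
      have h2 : ∀ k, ‖(hmem k).toLp (gradient (u k)) - hgmem.toLp g‖ =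
          Real.sqrt (∫ x, ‖gradient (u k) x - g x‖ ^ 2) := by
        intro k
        rw [← MemLp.toLp_sub, ← Real.sqrt_sq (norm_nonneg _), hnorm]
        rfl
      simp_rw [h2]
      have := hlg.sqrt
      simpa using this
    have h3 := (h1.norm).pow 2
    simp_rw [hnorm] at h3
    exact h3
  have hval : S = 2 * (∫ x, w x) - ∫ x, ‖g x‖ ^ 2 := by
    have h1 : Tendsto (fun k => J (u k)) atTop (𝓝 (2 * (∫ x, w x) - ∫ x, ‖g x‖ ^ 2)) :=
      (hi.const_mul 2).sub hdl
    exact tendsto_nhds_unique hJ h1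
  -- subsequence
  have hmeas : TendstoInMeasure volume (fun k => u k) atTop w := by
    have h1 : Tendsto (fun k => (hu k).qint.toL1 (u k)) atTop (𝓝 (hwint.toL1 w)) := by
      rw [tendsto_iff_norm_sub_tendsto_zero]
      have h2 : ∀ k, ‖(hu k).qint.toL1 (u k) - hwint.toL1 w‖ = ∫ x, |u k x - w x| := by
        intro k
        rw [← Integrable.toL1_sub, L1.norm_eq_integral_norm]
        apply integral_congr_ae
        filter_upwards [((hu k).qint.sub hwint).coeFn_toL1] with x hx
        rw [hx, Real.norm_eq_abs]; rfl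
      simp_rw [h2]
      exact hlw
    have h2 := tendstoInMeasure_of_tendsto_Lp h1
    exact h2.congr (fun k => (hu k).qint.coeFn_toL1) hwint.coeFn_toL1
  obtain ⟨ns, hns, hae⟩ := hmeas.exists_seq_tendsto_ae
  refine ⟨fun k => u (ns k), w, g, ho, hf, fun k => hu _, fun k x => hu0 _ x, hwm, hgm, hwpos,
    hw0, hg0, hwint, hgint, hlw.comp hns.tendsto_atTop, hlg.comp hns.tendsto_atTop, hae, ?_⟩
  intro φ hφ
  rw [← hval]
  exact hS φ hφ

end Pool.Agent.Helper47.FK
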