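import Pool.Agent.Helper47.FK.PairA

/-! Passage to the limit in the torsion pair: Euler-Lagrange equation and isoperimetric
inequality. -/

open MeasureTheory Metric Set Filter Topology
open scoped ENNReal

namespace Pool.Agent.Helper47.FK

open Pool.Agent.Helper71.FK

variable {N : ℕ} {Ω : Set (E N)} {u : ℕ → E N → ℝ} {w : E N → ℝ} {g : E N → E N}

theorem psi_lip {ψ : ℝ → ℝ} (hψ : ContDiff ℝ 1 ψ) {C : ℝ} (hC : ∀ s, |deriv ψ s| ≤ C)
    (a b : ℝ) : |ψ a - ψ b| ≤ C * |a - b| := by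
  have := Convex.norm_image_sub_le_of_norm_deriv_le (f := ψ) (s := univ) (x := b) (y := a)
    (fun x _ => hψ.differentiable one_ne_zero x) (fun x _ => hC x) convex_univ (mem_univ _)
    (mem_univ _)
  exact this

/-- Cauchy-Schwarz -/
theorem cs {α : Type*} [MeasurableSpace α] {μ : Measure α} {f h : α → ℝ}
    (hf : Integrable (fun x => f x ^ 2) μ) (hh : Integrable (fun x => h x ^ 2) μ)
    (hfh : Integrable (fun x => f x * h x) μ) :
    (∫ x, f x * h x ∂μ) ^ 2 ≤ (∫ x, f x ^ 2 ∂μ) * ∫ x, h x ^ 2 ∂μ := by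
  have h1 : ∀ t : ℝ, 0 ≤ (∫ x, f x ^ 2 ∂μ) * (t * t) + (2 * ∫ x, f x * h x ∂μ) * t +
      ∫ x, h x ^ 2 ∂μ := by
    intro t
    have h2 : 0 ≤ ∫ x, (t * f x + h x) ^ 2 ∂μ := integral_nonneg fun x => by positivity
    have h3 : ∫ x, (t * f x + h x) ^ 2 ∂μ = (∫ x, f x ^ 2 ∂μ) * (t * t) +
        (2 * ∫ x, f x * h x ∂μ) * t + ∫ x, h x ^ 2 ∂μ := by
      have e : (fun x => (t * f x + h x) ^ 2) = fun x =>
          (t * t) * f x ^ 2 + ((2 * t) * (f x * h x) + h x ^ 2) := by ext x; ring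
      have e3 : ∫ x, ((2 * t) * (f x * h x) + h x ^ 2) ∂μ =
          (2 * t) * (∫ x, f x * h x ∂μ) + ∫ x, h x ^ 2 ∂μ := by
        rw [integral_add (hfh.const_mul _) hh, integral_const_mul]
      have e4 : ∫ x, ((t * t) * f x ^ 2 + ((2 * t) * (f x * h x) + h x ^ 2)) ∂μ =
          (t * t) * (∫ x, f x ^ 2 ∂μ) + ∫ x, ((2 * t) * (f x * h x) + h x ^ 2) ∂μ := by
        rw [← integral_const_mul]
        exact integral_add (hf.const_mul _) ((hfh.const_mul _).add hh)
      rw [e, e4, e3]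
      ring
    rw [h3] at h2
    exact h2
  have h2 := discrim_le_zero h1
  unfold discrim at h2
  nlinarith

section pair

variable (hp : Pair Ω u w g)
include hp

theorem gmem : MemLp g 2 volume :=
  (memLp_two_iff_integrable_sq_norm hp.gm.aestronglyMeasurable).2 hp.gint

theorem gradmem (k : ℕ) : MemLp (gradient (u k)) 2 volume :=
  (hp.tst k).qgcont.memLp_of_hasCompactSupport (hp.tst k).qgcpt

theorem one_int : Integrable (Ω.indicator (fun _ => (1:ℝ))) := by
  rw [integrable_indicator_iff hp.isOpen.measurableSet]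
  exact integrableOn_const hp.fin

theorem gint1 : Integrable (fun x => ‖g x‖) := by
  apply (hp.gint.add (one_int hp)).mono' hp.gm.norm.aestronglyMeasurable
  filter_upwards with x
  simp only [Pi.add_apply]
  rw [Real.norm_eq_abs, abs_of_nonneg (norm_nonneg _)]
  by_cases hx : x ∈ Ω
  · rw [indicator_of_mem hx]
    nlinarith [sq_nonneg (‖g x‖ - 1), norm_nonneg (g x)]
  · rw [indicator_of_notMem hx, hp.g0 x hx]
    simp

theorem subint (k : ℕ) : Integrable (fun x => ‖gradient (u k) x - g x‖ ^ 2) :=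
  ((gradmem hp k).sub (gmem hp)).integrable_norm_pow (by norm_num)

theorem subint1 (k : ℕ) : Integrable (fun x => ‖gradient (u k) x - g x‖) := by
  have h1 : Integrable (gradient (u k)) :=
    (hp.tst k).qgcont.integrable_of_hasCompactSupport (hp.tst k).qgcpt
  have h2 : Integrable g := by
    rw [← integrable_norm_iff hp.gm.aestronglyMeasurable]
    exact gint1 hp
  exact (h1.sub h2).norm

theorem lim_grad1 : Tendsto (fun k => ∫ x, ‖gradient (u k) x - g x‖) atTop (𝓝 0) := by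
  set V := ∫ x, (Ω.indicator (fun _ => (1:ℝ)) x) ^ 2 with hV
  have h1 : Tendsto (fun k => Real.sqrt (V * ∫ x, ‖gradient (u k) x - g x‖ ^ 2)) atTop
      (𝓝 0) := by
    have := (hp.limg.const_mul V).sqrt
    simpa using this
  apply squeeze_zero (fun k => integral_nonneg fun x => norm_nonneg _) _ h1
  intro k
  apply Real.le_sqrt_of_sq_le
  have e : (fun x => ‖gradient (u k) x - g x‖) = fun x =>
      (Ω.indicator (fun _ => (1:ℝ)) x) * ‖gradient (u k) x - g x‖ := by
    ext x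
    by_cases hx : x ∈ Ω
    · rw [indicator_of_mem hx, one_mul]
    · rw [indicator_of_notMem hx, hp.g0 x hx, (hp.tst k).qgoff hx]
      simp
  have e2 : (fun x => (Ω.indicator (fun _ => (1:ℝ)) x) ^ 2) = Ω.indicator (fun _ => (1:ℝ)) := by
    ext x
    by_cases hx : x ∈ Ω
    · rw [indicator_of_mem hx, one_pow]
    · rw [indicator_of_notMem hx]; simp
  have h2 := cs (μ := volume) (f := Ω.indicator (fun _ => (1:ℝ)))
    (h := fun x => ‖gradient (u k) x - g x‖) (by rw [e2]; exact one_int hp) (subint hp k)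
    (by rw [← e]; exact subint1 hp k)
  rw [← e] at h2
  exact h2

theorem lim_vec {Vk : ℕ → E N → E N} {V : E N → E N} {C : ℝ}
    (hm : ∀ k, AEStronglyMeasurable (Vk k) volume) 
    (hb : ∀ k, ∀ x ∈ Ω, ‖Vk k x‖ ≤ C)
    (hl : ∀ᵐ x, x ∈ Ω → Tendsto (fun k => Vk k x) atTop (𝓝 (V x))) :
    Tendsto (fun k => ∫ x, (inner ℝ (gradient (u k) x) (Vk k x) : ℝ)) atTop
      (𝓝 (∫ x, (inner ℝ (g x) (V x) : ℝ))) := by
  have hi : ∀ {a : E N → E N} (_ : AEStronglyMeasurable a volume)
      (_ : Integrable (fun x => ‖a x‖)) (_ : ∀ x, x ∉ Ω → a x = 0) (k : ℕ),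
      Integrable (fun x => (inner ℝ (a x) (Vk k x) : ℝ)) := by
    intro a ha hai ha0 k
    apply (hai.mul_const C).mono' (ha.inner (hm k))
    filter_upwards with x
    by_cases hx : x ∈ Ω
    · refine (norm_inner_le_norm _ _).trans ?_
      exact mul_le_mul_of_nonneg_left (hb k x hx) (norm_nonneg _)
    · rw [ha0 x hx]; simp
  have h1 : Tendsto (fun k => ∫ x, (inner ℝ (g x) (Vk k x) : ℝ)) atTop
      (𝓝 (∫ x, (inner ℝ (g x) (V x) : ℝ))) := by
    apply tendsto_integral_of_dominated_convergence (fun x => ‖g x‖ * C)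
    · intro k
      exact hp.gm.aestronglyMeasurable.inner (hm k)
    · exact (gint1 hp).mul_const C
    · intro k
      filter_upwards with x
      by_cases hx : x ∈ Ω
      · refine (norm_inner_le_norm _ _).trans ?_
        exact mul_le_mul_of_nonneg_left (hb k x hx) (norm_nonneg _)
      · rw [hp.g0 x hx]; simp
    · filter_upwards [hl] with x hx'
      by_cases hx : x ∈ Ω
      · exact (tendsto_const_nhds).inner (hx' hx)
      · rw [hp.g0 x hx]; simp
  have h2 : Tendsto (fun k => (∫ x, (inner ℝ (gradient (u k) x) (Vk k x) : ℝ)) -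
      ∫ x, (inner ℝ (g x) (Vk k x) : ℝ)) atTop (𝓝 0) := by
    rw [tendsto_zero_iff_norm_tendsto_zero]
    have h3 := (lim_grad1 hp).mul_const C
    rw [zero_mul] at h3
    apply squeeze_zero (fun k => norm_nonneg _) _ h3
    intro k
    have i1 := hi (hp.tst k).qgcont.aestronglyMeasurable (hp.tst k).qgint1
      (fun x hx => (hp.tst k).qgoff hx) k
    have i2 := hi hp.gm.aestronglyMeasurable (gint1 hp) hp.g0 k
    rw [← integral_sub i1 i2, ← integral_mul_const]
    refine (norm_integral_le_integral_norm _).trans ?_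
    apply integral_mono (i1.sub i2).norm ((subint1 hp k).mul_const C)
    intro x
    simp only [Pi.sub_apply]
    rw [← inner_sub_left]
    by_cases hx : x ∈ Ω
    · refine (norm_inner_le_norm _ _).trans ?_
      exact mul_le_mul_of_nonneg_left (hb k x hx) (norm_nonneg _)
    · rw [hp.g0 x hx, (hp.tst k).qgoff hx]; simp
  have := h2.add h1
  simpa using this

theorem lim_norm {Fk : ℕ → E N → ℝ} {F : E N → ℝ} {C : ℝ}
    (hm : ∀ k, AEStronglyMeasurable (Fk k) volume)
    (hb : ∀ k, ∀ x ∈ Ω, |Fk k x| ≤ C)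
    (hl : ∀ᵐ x, x ∈ Ω → Tendsto (fun k => Fk k x) atTop (𝓝 (F x))) :
    Tendsto (fun k => ∫ x, Fk k x * ‖gradient (u k) x‖) atTop (𝓝 (∫ x, F x * ‖g x‖)) := by
  have hi : ∀ {a : E N → E N} (_ : AEStronglyMeasurable a volume)
      (_ : Integrable (fun x => ‖a x‖)) (_ : ∀ x, x ∉ Ω → a x = 0) (k : ℕ),
      Integrable (fun x => Fk k x * ‖a x‖) := by
    intro a ha hai ha0 k
    apply (hai.const_mul C).mono' ((hm k).mul ha.norm)
    filter_upwards with x
    simp only [Pi.mul_apply]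
    by_cases hx : x ∈ Ω
    · rw [norm_mul, norm_norm]
      exact mul_le_mul_of_nonneg_right (hb k x hx) (norm_nonneg _)
    · rw [ha0 x hx]; simp
  have h1 : Tendsto (fun k => ∫ x, Fk k x * ‖g x‖) atTop (𝓝 (∫ x, F x * ‖g x‖)) := by
    apply tendsto_integral_of_dominated_convergence (fun x => C * ‖g x‖)
    · intro k
      exact (hm k).mul hp.gm.norm.aestronglyMeasurable
    · exact (gint1 hp).const_mul C
    · intro k
      filter_upwards with x
      by_cases hx : x ∈ Ω
      · rw [norm_mul, norm_norm]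
        exact mul_le_mul_of_nonneg_right (hb k x hx) (norm_nonneg _)
      · rw [hp.g0 x hx]; simp
    · filter_upwards [hl] with x hx'
      by_cases hx : x ∈ Ω
      · exact (hx' hx).mul_const _
      · rw [hp.g0 x hx]; simp
  have h2 : Tendsto (fun k => (∫ x, Fk k x * ‖gradient (u k) x‖) - ∫ x, Fk k x * ‖g x‖)
      atTop (𝓝 0) := by
    rw [tendsto_zero_iff_norm_tendsto_zero]
    have h3 := (lim_grad1 hp).const_mul C
    rw [mul_zero] at h3
    apply squeeze_zero (fun k => norm_nonneg _) _ h3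
    intro k
    have i1 := hi (hp.tst k).qgcont.aestronglyMeasurable (hp.tst k).qgint1
      (fun x hx => (hp.tst k).qgoff hx) k
    have i2 := hi hp.gm.aestronglyMeasurable (gint1 hp) hp.g0 k
    rw [← integral_sub i1 i2, ← integral_const_mul]
    refine (norm_integral_le_integral_norm _).trans ?_
    apply integral_mono (i1.sub i2).norm ((subint1 hp k).const_mul C)
    intro x
    simp only [Pi.sub_apply]
    by_cases hx : x ∈ Ω
    · rw [← mul_sub, norm_mul]
      have hC : 0 ≤ C := (abs_nonneg _).trans (hb k x hx)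
      exact mul_le_mul (hb k x hx) (abs_norm_sub_norm_le _ _) (norm_nonneg _) hC
    · rw [hp.g0 x hx, (hp.tst k).qgoff hx]; simp
  have := h2.add h1
  simpa using this

theorem lim_sq {Fk : ℕ → E N → ℝ} {F : E N → ℝ} {C : ℝ}
    (hm : ∀ k, AEStronglyMeasurable (Fk k) volume)
    (hb : ∀ k, ∀ x ∈ Ω, |Fk k x| ≤ C)
    (hl : ∀ᵐ x, x ∈ Ω → Tendsto (fun k => Fk k x) atTop (𝓝 (F x))) :
    Tendsto (fun k => ∫ x, Fk k x * ‖gradient (u k) x‖ ^ 2) atTop
      (𝓝 (∫ x, F x * ‖g x‖ ^ 2)) := by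
  have hi : ∀ {a : E N → E N} (_ : AEStronglyMeasurable a volume)
      (_ : Integrable (fun x => ‖a x‖ ^ 2)) (_ : ∀ x, x ∉ Ω → a x = 0) (k : ℕ),
      Integrable (fun x => Fk k x * ‖a x‖ ^ 2) := by
    intro a ha hai ha0 k
    apply (hai.const_mul C).mono' ((hm k).mul (ha.norm.pow 2))
    filter_upwards with x
    simp only [Pi.mul_apply, Pi.pow_apply]
    by_cases hx : x ∈ Ω
    · rw [norm_mul, norm_pow, norm_norm]
      exact mul_le_mul_of_nonneg_right (hb k x hx) (by positivity)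
    · rw [ha0 x hx]; simp
  have h1 : Tendsto (fun k => ∫ x, Fk k x * ‖g x‖ ^ 2) atTop (𝓝 (∫ x, F x * ‖g x‖ ^ 2)) := by
    apply tendsto_integral_of_dominated_convergence (fun x => C * ‖g x‖ ^ 2)
    · intro k
      exact (hm k).mul (hp.gm.norm.pow_const 2).aestronglyMeasurable
    · exact hp.gint.const_mul C
    · intro k
      filter_upwards with x
      by_cases hx : x ∈ Ω
      · rw [norm_mul, norm_pow, norm_norm]
        exact mul_le_mul_of_nonneg_right (hb k x hx) (by positivity)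
      · rw [hp.g0 x hx]; simp
    · filter_upwards [hl] with x hx'
      by_cases hx : x ∈ Ω
      · exact (hx' hx).mul_const _
      · rw [hp.g0 x hx]; simp
  have h2 : Tendsto (fun k => (∫ x, Fk k x * ‖gradient (u k) x‖ ^ 2) -
      ∫ x, Fk k x * ‖g x‖ ^ 2) atTop (𝓝 0) := by
    rw [tendsto_zero_iff_norm_tendsto_zero]
    set W := ∫ x, ‖g x‖ ^ 2 with hW
    have h3 : Tendsto (fun k => |C| * ((∫ x, ‖gradient (u k) x - g x‖ ^ 2) +
        2 * Real.sqrt (W * ∫ x, ‖gradient (u k) x - g x‖ ^ 2))) atTop (𝓝 0) := by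
      have := (hp.limg.add (((hp.limg.const_mul W).sqrt).const_mul 2)).const_mul |C|
      simpa using this
    apply squeeze_zero (fun k => norm_nonneg _) _ h3
    intro k
    have i1 := hi (hp.tst k).qgcont.aestronglyMeasurable (hp.tst k).qgint
      (fun x hx => (hp.tst k).qgoff hx) k
    have i2 := hi hp.gm.aestronglyMeasurable hp.gint hp.g0 k
    have i3 : Integrable (fun x => ‖g x‖ * ‖gradient (u k) x - g x‖) := by
      apply (hp.gint.add (subint hp k)).mono'
        (hp.gm.norm.aestronglyMeasurable.mul (subint1 hp k).aestronglyMeasurable)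
      filter_upwards with x
      simp only [Pi.add_apply, Pi.mul_apply, norm_mul, norm_norm]
      nlinarith [sq_nonneg (‖g x‖ - ‖gradient (u k) x - g x‖), sq_nonneg (‖g x‖),
        sq_nonneg (‖gradient (u k) x - g x‖)]
    have h4 : ∫ x, ‖g x‖ * ‖gradient (u k) x - g x‖ ≤
        Real.sqrt (W * ∫ x, ‖gradient (u k) x - g x‖ ^ 2) := by
      apply Real.le_sqrt_of_sq_le
      exact cs hp.gint (subint hp k) i3
    have h5 : ‖(∫ x, Fk k x * ‖gradient (u k) x‖ ^ 2) - ∫ x, Fk k x * ‖g x‖ ^ 2‖ ≤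
        ∫ x, |C| * (‖gradient (u k) x - g x‖ ^ 2 +
          2 * (‖g x‖ * ‖gradient (u k) x - g x‖)) := by
      rw [← integral_sub i1 i2]
      refine (norm_integral_le_integral_norm _).trans ?_
      apply integral_mono (i1.sub i2).norm
      · exact ((subint hp k).add (i3.const_mul 2)).const_mul _
      intro x
      simp only [Pi.sub_apply]
      by_cases hx : x ∈ Ω
      · rw [← mul_sub, norm_mul]
        have hC : |Fk k x| ≤ |C| := (hb k x hx).trans (le_abs_self C)
        apply mul_le_mul hC _ (norm_nonneg _) (abs_nonneg _)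
        have h6 := abs_norm_sub_norm_le (gradient (u k) x) (g x)
        have h7 : ‖gradient (u k) x‖ ≤ ‖gradient (u k) x - g x‖ + ‖g x‖ := by
          have := norm_add_le (gradient (u k) x - g x) (g x)
          rwa [sub_add_cancel] at this
        have h8 : ‖gradient (u k) x‖ ^ 2 - ‖g x‖ ^ 2 =
          (‖gradient (u k) x‖ - ‖g x‖) * (‖gradient (u k) x‖ + ‖g x‖) := by ring
        rw [h8, norm_mul, Real.norm_eq_abs, Real.norm_eq_abs,
          abs_of_nonneg (a := ‖gradient (u k) x‖ + ‖g x‖) (by positivity)]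
        calc |‖gradient (u k) x‖ - ‖g x‖| * (‖gradient (u k) x‖ + ‖g x‖)
            ≤ ‖gradient (u k) x - g x‖ * ((‖gradient (u k) x - g x‖ + ‖g x‖) + ‖g x‖) := by
              apply mul_le_mul h6 _ (by positivity) (norm_nonneg _)
              linarith
          _ = _ := by ring
      · rw [hp.g0 x hx, (hp.tst k).qgoff hx]; simp
    refine h5.trans ?_
    rw [integral_const_mul, integral_add (subint hp k) (i3.const_mul 2), integral_const_mul]
    apply mul_le_mul_of_nonneg_left _ (abs_nonneg _)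
    linarith
  have := h2.add h1
  simpa using this

theorem lim_psi {ψ : ℝ → ℝ} (hψ : ContDiff ℝ 1 ψ) (h0 : ψ 0 = 0) {C : ℝ}
    (hC : ∀ s, |deriv ψ s| ≤ C) :
    Tendsto (fun k => ∫ x, ψ (u k x)) atTop (𝓝 (∫ x, ψ (w x))) := by
  rw [tendsto_iff_norm_sub_tendsto_zero]
  have h1 := hp.limw.const_mul C
  rw [mul_zero] at h1
  apply squeeze_zero (fun k => norm_nonneg _) _ h1
  intro k
  have i1 : Integrable (fun x => ψ (u k x)) := ((hp.tst k).qcomp hψ h0).qint
  have i2 : Integrable (fun x => ψ (w x)) := by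
    apply (hp.wint.norm.const_mul C).mono'
      (hψ.continuous.measurable.comp hp.wm).aestronglyMeasurable
    filter_upwards with x
    have := psi_lip hψ hC (w x) 0
    rw [h0, sub_zero, sub_zero] at this
    exact this
  rw [← integral_sub i1 i2, ← integral_const_mul]
  refine (norm_integral_le_integral_norm _).trans ?_
  apply integral_mono (i1.sub i2).norm (((hp.tst k).qint.sub hp.wint).abs.const_mul C)
  intro x
  exact psi_lip hψ hC _ _

theorem lim_dir : Tendsto (fun k => dir (u k)) atTop (𝓝 (∫ x, ‖g x‖ ^ 2)) := by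
  have := lim_sq hp (Fk := fun _ _ => 1) (F := fun _ => 1) (C := 1)
    (fun k => aestronglyMeasurable_const) (fun k x _ => by simp) (by simp)
  simpa [dir] using this

theorem lim_J : Tendsto (fun k => J (u k)) atTop (𝓝 (2 * (∫ x, w x) - ∫ x, ‖g x‖ ^ 2)) := by
  have h1 := lim_psi hp (ψ := fun s => s) contDiff_id rfl (C := 1) (by simp)
  exact (h1.const_mul 2).sub (lim_dir hp)

theorem weak_form (k : ℕ) {φ : E N → ℝ} (hφ : Tst Ω φ) :
    ((∫ x, φ x) - ∫ x, (inner ℝ (gradient (u k) x) (gradient φ x) : ℝ)) ^ 2 ≤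
      ((2 * (∫ x, w x) - ∫ x, ‖g x‖ ^ 2) - J (u k)) * dir φ := by
  have h1 : ∀ t : ℝ, 0 ≤ dir φ * (t * t) +
      (-2 * ((∫ x, φ x) - ∫ x, (inner ℝ (gradient (u k) x) (gradient φ x) : ℝ))) * t +
      ((2 * (∫ x, w x) - ∫ x, ‖g x‖ ^ 2) - J (u k)) := by
    intro t
    have h2 := hp.max _ ((hp.tst k).qadd (hφ.qconst_mul t))
    rw [J_add_mul (hp.tst k) hφ] at h2
    nlinarith
  have h2 := discrim_le_zero h1
  unfold discrim at h2
  nlinarith

theorem euler {ψ : ℝ → ℝ} (hψ : ContDiff ℝ 1 ψ) (h0 : ψ 0 = 0)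
    {C : ℝ} (hC : ∀ s, |deriv ψ s| ≤ C) :
    ∫ x, deriv ψ (w x) * ‖g x‖ ^ 2 = ∫ x, ψ (w x) := by
  have hdc : Continuous (deriv ψ) := hψ.continuous_deriv le_rfl
  have h1 := lim_sq hp (Fk := fun k x => deriv ψ (u k x)) (F := fun x => deriv ψ (w x)) (C := C)
    (fun k => (hdc.comp (hp.tst k).smooth.continuous).aestronglyMeasurable)
    (fun k x _ => hC _) (by
      filter_upwards [hp.limae] with x hx _
      exact (hdc.tendsto _).comp hx)
  have h2 := lim_psi hp hψ h0 hC
  have h3 := (h2.sub h1).pow 2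
  have h4 : ∀ k, ((∫ x, ψ (u k x)) - ∫ x, deriv ψ (u k x) * ‖gradient (u k) x‖ ^ 2) ^ 2 ≤
      ((2 * (∫ x, w x) - ∫ x, ‖g x‖ ^ 2) - J (u k)) * (C ^ 2 * dir (u k)) := by
    intro k
    have h5 := weak_form hp k ((hp.tst k).qcomp hψ h0)
    have e : (fun x => (inner ℝ (gradient (u k) x) (gradient (fun x => ψ (u k x)) x) : ℝ)) =
        fun x => deriv ψ (u k x) * ‖gradient (u k) x‖ ^ 2 := by
      ext x
      rw [gradient_comp' (hψ.differentiable one_ne_zero _) ((hp.tst k).qdiff x),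
        real_inner_smul_right, real_inner_self_eq_norm_sq]
    rw [e] at h5
    refine h5.trans ?_
    apply mul_le_mul_of_nonneg_left (dir_comp_le (hp.tst k) hψ h0 hC)
    have := hp.max _ (hp.tst k)
    linarith
  have h6 : Tendsto (fun k => ((2 * (∫ x, w x) - ∫ x, ‖g x‖ ^ 2) - J (u k)) *
      (C ^ 2 * dir (u k))) atTop (𝓝 0) := by
    have := ((tendsto_const_nhds (x := 2 * (∫ x, w x) - ∫ x, ‖g x‖ ^ 2)).sub (lim_J hp)).mul
      ((lim_dir hp).const_mul (C ^ 2))
    simpa using this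
  have h7 := le_of_tendsto_of_tendsto' h3 h6 h4
  have h8 : (∫ x, ψ (w x)) - ∫ x, deriv ψ (w x) * ‖g x‖ ^ 2 = 0 := by
    have := sq_nonneg ((∫ x, ψ (w x)) - ∫ x, deriv ψ (w x) * ‖g x‖ ^ 2)
    exact pow_eq_zero_iff (two_ne_zero) |>.1 (le_antisymm h7 this)
  linarith

theorem lim_dpsi {ψ : ℝ → ℝ} (hψ : ContDiff ℝ 1 ψ) {C : ℝ} (hC : ∀ s, |deriv ψ s| ≤ C) :
    Tendsto (fun k => ∫ x, deriv ψ (u k x) * ‖gradient (u k) x‖) atTop
      (𝓝 (∫ x, deriv ψ (w x) * ‖g x‖)) := by
  have hdc : Continuous (deriv ψ) := hψ.continuous_deriv le_rfl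
  exact lim_norm hp (Fk := fun k x => deriv ψ (u k x)) (F := fun x => deriv ψ (w x)) (C := C)
    (fun k => (hdc.comp (hp.tst k).smooth.continuous).aestronglyMeasurable)
    (fun k x _ => hC _) (by
      filter_upwards [hp.limae] with x hx _
      exact (hdc.tendsto _).comp hx)

theorem iso_step (hIP : IP N) {ψ : ℝ → ℝ} (hψ : ContDiff ℝ 1 ψ)
    (hmono : Monotone ψ) (h0 : ψ 0 = 0) (k : ℕ) {Ω' : Set (E N)} (ho : IsOpen Ω')
    (hsub : tsupport (fun x => ψ (u k x)) ⊆ Ω') {r : ℝ} (hr : 0 ≤ r)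
    (hvol : volume Ω' ≤ ENNReal.ofReal (om N * r ^ N)) :
    N * ∫ x, ψ (u k x) ≤ r * ∫ x, deriv ψ (u k x) * ‖gradient (u k) x‖ := by
  have ht := (hp.tst k).qcomp hψ h0
  have h1 := hIP Ω' r ho hr hvol _ ⟨ht.smooth, ht.cpt, hsub⟩ (fun x => by
    rw [← h0]; exact hmono (hp.upos k x))
  have e : (fun x => ‖gradient (fun x => ψ (u k x)) x‖) =
      fun x => deriv ψ (u k x) * ‖gradient (u k) x‖ := by
    ext x
    rw [gradient_comp' (hψ.differentiable one_ne_zero _) ((hp.tst k).qdiff x), norm_smul,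
      Real.norm_eq_abs, abs_of_nonneg hmono.deriv_nonneg]
  rw [e] at h1
  exact h1

theorem iso0 (hIP : IP N) {ψ : ℝ → ℝ} (hψ : ContDiff ℝ 1 ψ)
    (hmono : Monotone ψ) (h0 : ψ 0 = 0)
    {C : ℝ} (hC : ∀ t, |deriv ψ t| ≤ C) {r : ℝ} (hr : 0 ≤ r)
    (hvol : volume Ω ≤ ENNReal.ofReal (om N * r ^ N)) :
    N * ∫ x, ψ (w x) ≤ r * ∫ x, deriv ψ (w x) * ‖g x‖ := by
  apply le_of_tendsto_of_tendsto' ((lim_psi hp hψ h0 hC).const_mul (N : ℝ))
    ((lim_dpsi hp hψ hC).const_mul r)
  intro k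
  exact iso_step hp hIP hψ hmono h0 k hp.isOpen
    ((tsupport_comp_sub h0 _).trans (hp.tst k).supp) hr hvol

theorem levelset_meas {s' s'' : ℝ} (h : s'' < s') (h0 : 0 ≤ s'') (k : ℕ) :
    volume.real {x | s' < u k x} ≤
      volume.real {x | s'' < w x} + (∫ x, |u k x - w x|) / (s' - s'') := by
  have hd : 0 < s' - s'' := sub_pos.2 h
  have hsub : {x | s' < u k x} ⊆ {x | s'' < w x} ∪ {x | s' - s'' ≤ |u k x - w x|} := by
    intro x hx
    simp only [mem_ofPred_eq, mem_union] at hx ⊢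
    by_contra hcon
    push Not at hcon
    have := le_abs_self (u k x - w x)
    linarith [hcon.1, hcon.2]
  have hint : Integrable (fun x => |u k x - w x|) := ((hp.tst k).qint.sub hp.wint).abs
  have h1 := mul_meas_ge_le_integral_of_nonneg (μ := volume)
    (f := fun x => |u k x - w x|) (ae_of_all _ fun x => abs_nonneg _) hint (s' - s'')
  have hfin1 : volume {x | s'' < w x} ≠ ⊤ := by
    apply ne_top_of_le_ne_top hp.fin (measure_mono _)
    intro x hx
    by_contra h'
    simp only [mem_ofPred_eq] at hx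
    rw [hp.w0 x h'] at hx
    linarith
  have hfin2 : volume {x | s' - s'' ≤ |u k x - w x|} ≠ ⊤ := by
    apply ne_top_of_le_ne_top hp.fin (measure_mono _)
    intro x hx
    by_contra h'
    simp only [mem_ofPred_eq] at hx
    rw [hp.w0 x h', (hp.tst k).qoff h', sub_zero, abs_zero] at hx
    linarith
  calc volume.real {x | s' < u k x}
      ≤ volume.real ({x | s'' < w x} ∪ {x | s' - s'' ≤ |u k x - w x|}) := by
        exact measureReal_mono hsub (measure_union_lt_top hfin1.lt_top hfin2.lt_top).ne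
    _ ≤ volume.real {x | s'' < w x} + volume.real {x | s' - s'' ≤ |u k x - w x|} :=
        measureReal_union_le _ _
    _ ≤ _ := by
        gcongr
        rw [le_div_iff₀ hd, mul_comm]
        exact h1

theorem iso (hIP : IP N) {ψ : ℝ → ℝ} (hψ : ContDiff ℝ 1 ψ)
    (hmono : Monotone ψ) {s : ℝ} (hs : 0 < s) (h0 : ∀ t ≤ s, ψ t = 0)
    {C : ℝ} (hC : ∀ t, |deriv ψ t| ≤ C) {r : ℝ} (hr : 0 ≤ r)
    (hvol : volume {x | s ≤ w x} ≤ ENNReal.ofReal (om N * r ^ N)) :
    N * ∫ x, ψ (w x) ≤ r * ∫ x, deriv ψ (w x) * ‖g x‖ := by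
  have hA : 0 ≤ ∫ x, deriv ψ (w x) * ‖g x‖ :=
    integral_nonneg fun x => mul_nonneg hmono.deriv_nonneg (norm_nonneg _)
  rcases Nat.eq_zero_or_pos N with hN | hN
  · have : (N : ℝ) = 0 := by rw [hN]; simp
    rw [this, zero_mul]
    positivity
  have hom := om_pos N
  have hwfin : ∀ t : ℝ, 0 ≤ t → volume {x | t < w x} ≠ ⊤ := by
    intro t ht
    apply ne_top_of_le_ne_top hp.fin (measure_mono _)
    intro x hx
    by_contra h'
    simp only [mem_ofPred_eq] at hx
    rw [hp.w0 x h'] at hx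
    linarith
  -- claim
  have claim : ∀ ρ, r < ρ → N * ∫ x, ψ (w x) ≤ ρ * ∫ x, deriv ψ (w x) * ‖g x‖ := by
    intro ρ hρ
    have hρ0 : 0 ≤ ρ := hr.trans hρ.le
    have hlt : om N * r ^ N < om N * ρ ^ N :=
      mul_lt_mul_of_pos_left (pow_lt_pow_left₀ hρ hr (by omega)) hom
    have hmreal : volume.real {x | s ≤ w x} ≤ om N * r ^ N := by
      have hf : volume {x | s ≤ w x} ≠ ⊤ := ne_top_of_le_ne_top ENNReal.ofReal_ne_top hvol
      rw [ENNReal.le_ofReal_iff_toReal_le hf (by positivity)] at hvol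
      exact hvol
    -- sequence of levels
    have hlev : Tendsto (fun n : ℕ => volume {x | s * (1 - 1 / ((n:ℝ) + 1)) < w x}) atTop
        (𝓝 (volume (⋂ n : ℕ, {x | s * (1 - 1 / ((n:ℝ) + 1)) < w x}))) := by
      apply tendsto_measure_iInter_atTop
      · intro n
        exact (measurableSet_lt measurable_const hp.wm).nullMeasurableSet
      · intro n m hnm x hx
        simp only [mem_ofPred_eq] at hx ⊢
        refine lt_of_le_of_lt ?_ hx
        apply mul_le_mul_of_nonneg_left _ hs.le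
        have : (1:ℝ) / (m + 1) ≤ 1 / (n + 1) := by
          apply one_div_le_one_div_of_le (by positivity)
          have : (n:ℝ) ≤ m := by exact_mod_cast hnm
          linarith
        linarith
      · refine ⟨0, hwfin _ ?_⟩
        simp
    have hint : (⋂ n : ℕ, {x | s * (1 - 1 / ((n:ℝ) + 1)) < w x}) = {x | s ≤ w x} := by
      ext x
      simp only [mem_iInter, mem_ofPred_eq]
      constructor
      · intro h
        have h1 : Tendsto (fun n : ℕ => s * (1 - 1 / ((n:ℝ) + 1))) atTop (𝓝 (s * (1 - 0))) :=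
          (tendsto_const_nhds.sub tendsto_one_div_add_atTop_nhds_zero_nat).const_mul s
        rw [sub_zero, mul_one] at h1
        exact le_of_tendsto' h1 fun n => (h n).le
      · intro h n
        have : (0:ℝ) < 1 / (n + 1) := by positivity
        nlinarith
    rw [hint] at hlev
    have hf : volume {x | s ≤ w x} ≠ ⊤ := ne_top_of_le_ne_top ENNReal.ofReal_ne_top hvol
    have hlev' : Tendsto (fun n : ℕ => volume.real {x | s * (1 - 1 / ((n:ℝ) + 1)) < w x}) atTop
        (𝓝 (volume.real {x | s ≤ w x})) := (ENNReal.tendsto_toReal hf).comp hlev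
    obtain ⟨n, hn⟩ := (hlev'.eventually_lt_const (lt_of_le_of_lt hmreal hlt)).exists
    set s'' := s * (1 - 1 / ((n:ℝ) + 1)) with hs''
    have hs1 : s'' < s := by
      have : (0:ℝ) < 1 / (n + 1) := by positivity
      nlinarith
    have hs0 : 0 ≤ s'' := by
      apply mul_nonneg hs.le
      rw [sub_nonneg, div_le_one (by positivity)]
      have : (0:ℝ) ≤ n := Nat.cast_nonneg n
      linarith
    set s' := (s'' + s) / 2 with hs'
    have hs2 : s'' < s' := by rw [hs']; linarith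
    have hs3 : s' < s := by rw [hs']; linarith
    have hev : ∀ᶠ k in atTop, volume.real {x | s' < u k x} ≤ om N * ρ ^ N := by
      have h1 : Tendsto (fun k => volume.real {x | s'' < w x} +
          (∫ x, |u k x - w x|) / (s' - s'')) atTop
          (𝓝 (volume.real {x | s'' < w x} + 0 / (s' - s''))) :=
        tendsto_const_nhds.add (hp.limw.div_const _)
      rw [zero_div, add_zero] at h1
      filter_upwards [h1.eventually_lt_const hn] with k hk
      exact (levelset_meas hp hs2 hs0 k).trans hk.le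
    have h00 : ψ 0 = 0 := h0 0 hs.le
    apply le_of_tendsto_of_tendsto ((lim_psi hp hψ h00 hC).const_mul (N : ℝ))
      ((lim_dpsi hp hψ hC).const_mul ρ)
    filter_upwards [hev] with k hk
    apply iso_step hp hIP hψ hmono h00 k (Ω' := {x | s' < u k x})
      (isOpen_lt continuous_const (hp.tst k).smooth.continuous) _ hρ0 _
    · have h1 : tsupport (fun x => ψ (u k x)) ⊆ {x | s ≤ u k x} := by
        apply closure_minimal _ (isClosed_le continuous_const (hp.tst k).smooth.continuous)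
        intro x hx
        simp only [Function.mem_support] at hx
        simp only [mem_ofPred_eq]
        by_contra hcon
        exact hx (h0 _ (not_le.1 hcon).le)
      intro x hx
      exact lt_of_lt_of_le hs3 (h1 hx)
    · have hfin : volume {x | s' < u k x} ≠ ⊤ := by
        apply ne_top_of_le_ne_top hp.fin (measure_mono _)
        intro x hx
        by_contra h'
        simp only [mem_ofPred_eq] at hx
        rw [(hp.tst k).qoff h'] at hx
        linarith
      rw [ENNReal.le_ofReal_iff_toReal_le hfin (by positivity)]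
      exact hk
  apply le_of_forall_pos_le_add
  intro ε hε
  set A := ∫ x, deriv ψ (w x) * ‖g x‖ with hAdef
  have h1 := claim (r + ε / (A + 1)) (by
    have : 0 < ε / (A + 1) := by positivity
    linarith)
  have h2 : ε / (A + 1) * A ≤ ε := by
    rw [div_mul_eq_mul_div, div_le_iff₀ (by positivity)]
    nlinarith
  nlinarith

end pair

end Pool.Agent.Helper47.FK

namespace Pool.Agent.Helper71.FK

/-- M3 existence -/
theorem exists_pair {N : ℕ} (hN : 1 ≤ N) (hSV : SV N) {Ω : Set (E N)} (ho : IsOpen Ω)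
    (hf : volume Ω ≠ ⊤) : ∃ u w g, Pair Ω u w g :=
  Helper47.FK.exists_pair' hN hSV ho hf

/-- M3, P2 -/
theorem Pair.eulerLagrange {N : ℕ} {Ω : Set (E N)} {u : ℕ → E N → ℝ} {w : E N → ℝ}
    {g : E N → E N} (hp : Pair Ω u w g) {ψ : ℝ → ℝ} (hψ : ContDiff ℝ 1 ψ) (h0 : ψ 0 = 0)
    {C : ℝ} (hC : ∀ s, |deriv ψ s| ≤ C) :
    ∫ x, deriv ψ (w x) * ‖g x‖ ^ 2 = ∫ x, ψ (w x) :=
  Helper47.FK.euler hp hψ h0 hC

/-- M3, P3 -/
theorem Pair.isoperimetric {N : ℕ} {Ω : Set (E N)} {u : ℕ → E N → ℝ} {w : E N → ℝ}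
    {g : E N → E N} (hp : Pair Ω u w g) (hIP : IP N) {ψ : ℝ → ℝ} (hψ : ContDiff ℝ 1 ψ)
    (hmono : Monotone ψ) {s : ℝ} (hs : 0 < s) (h0 : ∀ t ≤ s, ψ t = 0)
    {C : ℝ} (hC : ∀ t, |deriv ψ t| ≤ C) {r : ℝ} (hr : 0 ≤ r)
    (hvol : volume {x | s ≤ w x} ≤ ENNReal.ofReal (om N * r ^ N)) :
    N * ∫ x, ψ (w x) ≤ r * ∫ x, deriv ψ (w x) * ‖g x‖ :=
  Helper47.FK.iso hp hIP hψ hmono hs h0 hC hr hvol

/-- M3, P3 at level 0 -/
theorem Pair.isoperimetric0 {N : ℕ} {Ω : Set (E N)} {u : ℕ → E N → ℝ} {w : E N → ℝ}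
    {g : E N → E N} (hp : Pair Ω u w g) (hIP : IP N) {ψ : ℝ → ℝ} (hψ : ContDiff ℝ 1 ψ)
    (hmono : Monotone ψ) (h0 : ψ 0 = 0)
    {C : ℝ} (hC : ∀ t, |deriv ψ t| ≤ C) {r : ℝ} (hr : 0 ≤ r)
    (hvol : volume Ω ≤ ENNReal.ofReal (om N * r ^ N)) :
    N * ∫ x, ψ (w x) ≤ r * ∫ x, deriv ψ (w x) * ‖g x‖ :=
  Helper47.FK.iso0 hp hIP hψ hmono h0 hC hr hvol

end Pool.Agent.Helper71.FK
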